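import Pool.Agent.Lib.H93C.Defs

/-!
# H93C, FB: the sum of the codegrees
-/

set_option autoImplicit false

open Finset
open scoped Classical

namespace Pool.Agent.Lib.H93C

open Pool.Agent.Lib.H93A (CoreFree codeg)

variable {V : Type} [Fintype V] {G : SimpleGraph V}

theorem codeg_comm (a b : V) : codeg G a b = codeg G b a := by
  unfold codeg
  congr 1
  exact Finset.filter_congr fun y _ => and_comm

/-- `∑_b codeg a b ≤ D²` (double counting of the paths `a y b`; `b = a` included) -/
theorem sum_codeg_le {D : ℕ} (hD : ∀ v, (univ.filter fun w => G.Adj v w).card ≤ D) (a : V) :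
    ∑ b, codeg G a b ≤ D ^ 2 := by
  have h1 : ∀ b, codeg G a b = ∑ y ∈ univ.filter (fun y => G.Adj a y), if G.Adj y b then 1 else 0 := by
    intro b
    unfold codeg
    rw [← Finset.card_filter, Finset.filter_filter]
    congr 1
    refine Finset.filter_congr fun y _ => ?_
    rw [G.adj_comm b y]
  rw [Finset.sum_congr rfl fun b _ => h1 b, Finset.sum_comm]
  calc ∑ y ∈ univ.filter (fun y => G.Adj a y), ∑ b, (if G.Adj y b then 1 else 0)
      ≤ ∑ _y ∈ univ.filter (fun y => G.Adj a y), D := by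
        refine Finset.sum_le_sum fun y _ => ?_
        rw [← Finset.card_filter]
        exact hD y
    _ = (univ.filter (fun y => G.Adj a y)).card * D := by rw [Finset.sum_const, smul_eq_mul]
    _ ≤ D * D := Nat.mul_le_mul_right _ (hD a)
    _ = D ^ 2 := by ring

/-- at most `D²/t` vertices `b` with `codeg a b ≥ t` -/
theorem card_codeg_ge {D : ℕ} (hD : ∀ v, (univ.filter fun w => G.Adj v w).card ≤ D) (a : V) (t : ℝ)
    (ht : 0 < t) : ((univ.filter fun b => t ≤ (codeg G a b : ℝ)).card : ℝ) ≤ (D : ℝ) ^ 2 / t := by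
  rw [le_div_iff₀ ht]
  have h1 := sum_codeg_le hD a
  have h2 : (∑ b, (codeg G a b : ℝ)) ≤ (D : ℝ) ^ 2 := by exact_mod_cast h1
  calc ((univ.filter fun b => t ≤ (codeg G a b : ℝ)).card : ℝ) * t
      = ∑ _b ∈ univ.filter fun b => t ≤ (codeg G a b : ℝ), t := by rw [sum_const, nsmul_eq_mul]
    _ ≤ ∑ b ∈ univ.filter fun b => t ≤ (codeg G a b : ℝ), (codeg G a b : ℝ) :=
        Finset.sum_le_sum fun b hb => (Finset.mem_filter.1 hb).2
    _ ≤ ∑ b, (codeg G a b : ℝ) :=
        Finset.sum_le_sum_of_subset_of_nonneg (Finset.filter_subset _ _) fun b _ _ => Nat.cast_nonneg _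
    _ ≤ (D : ℝ) ^ 2 := h2

end Pool.Agent.Lib.H93C
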