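import Pool.Agent.Lib.H93C.FA
import Pool.Agent.Lib.H93C.FB

/-!
# H93C, F2: event 4 (4-cycles inside the uncoloured part)
-/

set_option autoImplicit false

open Finset
open scoped Classical

namespace Pool.Agent.Lib.H93C

open Pool.Agent.Lib.Prob48 Pool.Agent.Lib.BipAcyc
open Pool.Agent.Lib.H93A (CoreFree codeg)

variable {V : Type} [Fintype V] {G : SimpleGraph V} {k : ℕ}

/-- the condition of `count4` -/
def F2Cond (G : SimpleGraph V) (φ : V → Option (Fin k)) (t : ℝ) (a : V) (s : V × V × V) : Prop :=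
  a ≠ s.2.1 ∧ s.1 ∈ uncCom G φ a s.2.1 ∧ s.2.2 ∈ uncCom G φ a s.2.1 ∧ (codeg G a s.2.1 : ℝ) < t

theorem f2_one {φ : V → Option (Fin k)} {D : ℕ} {K0 C1 γ ρ δ K1 : ℝ} (h : FHyp G φ D K0 C1 γ ρ δ)
    (hγ : 0 ≤ γ) (hρ : 0 ≤ ρ) (hK1 : 0 ≤ K1) (a c : V) (hac : a ≠ c)
    (hcd : (codeg G a c : ℝ) < K1 * (D : ℝ) ^ (2 / 3 : ℝ)) :
    ((uncCom G φ a c).card : ℝ) * ((uncCom G φ a c).card : ℝ) ≤
      (γ ^ 2 * K1 + ρ) * (D : ℝ) ^ (2 / 3 : ℝ) * (codeg G a c : ℝ) := by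
  have hX : 0 ≤ (D : ℝ) ^ (2 / 3 : ℝ) := Real.rpow_nonneg (Nat.cast_nonneg D) _
  have hg : (0 : ℝ) ≤ codeg G a c := Nat.cast_nonneg _
  have hu : (0 : ℝ) ≤ (uncCom G φ a c).card := Nat.cast_nonneg _
  by_cases hc : ρ * (D : ℝ) ^ (2 / 3 : ℝ) ≤ codeg G a c
  · have e1 := h.f3 a c hac hc
    have e2 : ((uncCom G φ a c).card : ℝ) * ((uncCom G φ a c).card : ℝ) ≤
        (γ * codeg G a c) * (γ * codeg G a c) :=
      mul_le_mul e1 e1 hu (mul_nonneg hγ hg)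
    have e3 : (γ ^ 2 * (codeg G a c : ℝ)) * (codeg G a c : ℝ) ≤
        (γ ^ 2 * (codeg G a c : ℝ)) * (K1 * (D : ℝ) ^ (2 / 3 : ℝ)) :=
      mul_le_mul_of_nonneg_left hcd.le (mul_nonneg (sq_nonneg γ) hg)
    have e4 : 0 ≤ ρ * (D : ℝ) ^ (2 / 3 : ℝ) * (codeg G a c : ℝ) :=
      mul_nonneg (mul_nonneg hρ hX) hg
    nlinarith [e2, e3, e4]
  · have e0 := (not_le.1 hc).le
    have e1 : (uncCom G φ a c).card ≤ codeg G a c := by
      unfold uncCom codeg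
      refine card_le_card ?_
      intro y hy
      rw [mem_filter] at hy ⊢
      exact ⟨hy.1, hy.2.2⟩
    have e2 : ((uncCom G φ a c).card : ℝ) ≤ codeg G a c := by exact_mod_cast e1
    have e3 : ((uncCom G φ a c).card : ℝ) * ((uncCom G φ a c).card : ℝ) ≤
        (codeg G a c : ℝ) * (codeg G a c : ℝ) := mul_le_mul e2 e2 hu hg
    have e4 : (codeg G a c : ℝ) * (codeg G a c : ℝ) ≤
        (ρ * (D : ℝ) ^ (2 / 3 : ℝ)) * (codeg G a c : ℝ) :=
      mul_le_mul_of_nonneg_right e0 hg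
    have e5 : 0 ≤ γ ^ 2 * K1 * (D : ℝ) ^ (2 / 3 : ℝ) * (codeg G a c : ℝ) :=
      mul_nonneg (mul_nonneg (mul_nonneg (sq_nonneg γ) hK1) hX) hg
    nlinarith [e3, e4, e5]

theorem f2_count {φ : V → Option (Fin k)} {D : ℕ} {K0 C1 γ ρ δ K1 : ℝ} (h : FHyp G φ D K0 C1 γ ρ δ)
    (hγ : 0 ≤ γ) (hρ : 0 ≤ ρ) (hK1 : 0 ≤ K1) (a : V) (T : Finset (V × V × V))
    (hT : ∀ s ∈ T, F2Cond G φ (K1 * (D : ℝ) ^ (2 / 3 : ℝ)) a s) :
    (T.card : ℝ) ≤ (γ ^ 2 * K1 + ρ) * (D : ℝ) ^ (8 / 3 : ℝ) := by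
  have hD0 : (0 : ℝ) ≤ (D : ℝ) := Nat.cast_nonneg D
  have hX : 0 ≤ (D : ℝ) ^ (2 / 3 : ℝ) := Real.rpow_nonneg hD0 _
  set I : Finset V := univ.filter fun c => a ≠ c ∧ (codeg G a c : ℝ) < K1 * (D : ℝ) ^ (2 / 3 : ℝ)
    with hI
  have hsub : T ⊆ I.biUnion fun c => (uncCom G φ a c ×ˢ uncCom G φ a c).image
      fun q => (q.1, c, q.2) := by
    rintro ⟨b, c, d⟩ hs
    obtain ⟨h1, h2, h3, h4⟩ := hT _ hs
    rw [mem_biUnion]
    refine ⟨c, ?_, ?_⟩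
    · rw [hI, mem_filter]
      exact ⟨mem_univ _, h1, h4⟩
    · rw [mem_image]
      exact ⟨(b, d), mem_product.2 ⟨h2, h3⟩, rfl⟩
  have h1 : T.card ≤ ∑ c ∈ I, (uncCom G φ a c).card * (uncCom G φ a c).card := by
    refine (card_le_card hsub).trans (card_biUnion_le.trans ?_)
    refine sum_le_sum fun c _ => card_image_le.trans ?_
    rw [card_product]
  have h2 : (T.card : ℝ) ≤ ∑ c ∈ I, ((uncCom G φ a c).card : ℝ) * ((uncCom G φ a c).card : ℝ) := by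
    exact_mod_cast h1
  refine h2.trans ?_
  have h3 := sum_codeg_le h.deg a
  have h4 : (∑ b, (codeg G a b : ℝ)) ≤ (D : ℝ) ^ 2 := by exact_mod_cast h3
  have hpow : (D : ℝ) ^ (8 / 3 : ℝ) = (D : ℝ) ^ (2 / 3 : ℝ) * (D : ℝ) ^ 2 := by
    rw [← Real.rpow_natCast (D : ℝ) 2, ← Real.rpow_add_of_nonneg hD0 (by norm_num) (by norm_num)]
    norm_num
  have hB : 0 ≤ (γ ^ 2 * K1 + ρ) * (D : ℝ) ^ (2 / 3 : ℝ) :=
    mul_nonneg (add_nonneg (mul_nonneg (sq_nonneg γ) hK1) hρ) hX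
  calc ∑ c ∈ I, ((uncCom G φ a c).card : ℝ) * ((uncCom G φ a c).card : ℝ)
      ≤ ∑ c ∈ I, (γ ^ 2 * K1 + ρ) * (D : ℝ) ^ (2 / 3 : ℝ) * (codeg G a c : ℝ) := by
        refine sum_le_sum fun c hc => ?_
        rw [hI, mem_filter] at hc
        exact f2_one h hγ hρ hK1 a c hc.2.1 hc.2.2
    _ ≤ ∑ c, (γ ^ 2 * K1 + ρ) * (D : ℝ) ^ (2 / 3 : ℝ) * (codeg G a c : ℝ) :=
        sum_le_sum_of_subset_of_nonneg (subset_univ _)
          fun c _ _ => mul_nonneg hB (Nat.cast_nonneg _)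
    _ = (γ ^ 2 * K1 + ρ) * (D : ℝ) ^ (2 / 3 : ℝ) * ∑ c, (codeg G a c : ℝ) := by rw [mul_sum]
    _ ≤ (γ ^ 2 * K1 + ρ) * (D : ℝ) ^ (2 / 3 : ℝ) * (D : ℝ) ^ 2 :=
        mul_le_mul_of_nonneg_left h4 hB
    _ = (γ ^ 2 * K1 + ρ) * (D : ℝ) ^ (8 / 3 : ℝ) := by rw [hpow, mul_assoc]

/-- For given `a`: the triples `(b, c, d)` with `a ≠ c`, `b, d` uncoloured common neighbours of `a` and `c`
and `codeg a c < K1 D^(2/3)` number at most `∑_c |uncCom a c|² ≤ (γ² K1 + ρ) D^(8/3)`. -/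
theorem count4 {φ : V → Option (Fin k)} {D : ℕ} {K0 C1 γ ρ δ K1 : ℝ} (h : FHyp G φ D K0 C1 γ ρ δ)
    (hγ : 0 ≤ γ) (hρ : 0 ≤ ρ) (hK1 : 0 ≤ K1) (a : V) :
    (((univ : Finset (V × V × V)).filter fun s => a ≠ s.2.1 ∧ s.1 ∈ uncCom G φ a s.2.1 ∧
      s.2.2 ∈ uncCom G φ a s.2.1 ∧
      (codeg G a s.2.1 : ℝ) < K1 * (D : ℝ) ^ (2 / 3 : ℝ)).card : ℝ) ≤
      (γ ^ 2 * K1 + ρ) * (D : ℝ) ^ (8 / 3 : ℝ) :=
  f2_count h hγ hρ hK1 a _ fun s hs => (mem_filter.1 hs).2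

/-- the condition of `Q4` -/
def F2I (G : SimpleGraph V) (φ : V → Option (Fin k)) (t : ℝ) (s : V × V × V × V) : Prop :=
  (φ s.1 = none ∧ φ s.2.1 = none ∧ φ s.2.2.1 = none ∧ φ s.2.2.2 = none) ∧
  (s.1 ≠ s.2.2.1 ∧ s.2.1 ≠ s.2.2.2) ∧
  (G.Adj s.1 s.2.1 ∧ G.Adj s.2.1 s.2.2.1 ∧ G.Adj s.2.2.1 s.2.2.2 ∧ G.Adj s.2.2.2 s.1) ∧
  ((codeg G s.1 s.2.2.1 : ℝ) < t ∧ (codeg G s.2.1 s.2.2.2 : ℝ) < t)

theorem f2_mem_unc {φ : V → Option (Fin k)} {a b c : V} (h0 : φ b = none) (h1 : G.Adj a b)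
    (h2 : G.Adj c b) : b ∈ uncCom G φ a c := by
  unfold uncCom
  rw [mem_filter]
  exact ⟨mem_univ _, h0, h1, h2⟩

/-- event 4: `family` with `I` = the 4-tuples of `Q4`, `S` = the four vertices, `p = 1/k'^2`
(`P_two_mono` with `{a, c}`, `{b, d}`), `c = 4 (γ² K1 + ρ) D^(8/3)` (the given vertex is `a`, `b`, `c` or
`d`; `count4` after rotation). -/
theorem avoid4 {φ : V → Option (Fin k)} {D : ℕ} {K0 C1 γ ρ δ K1 : ℝ} (h : FHyp G φ D K0 C1 γ ρ δ)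
    (hγ : 0 ≤ γ) (hρ : 0 ≤ ρ) (hK1 : 0 ≤ K1) (k' : ℕ) [NeZero k'] :
    Avoidable (unif V (Fin k')) 6 (4 * ((γ ^ 2 * K1 + ρ) * (D : ℝ) ^ (8 / 3 : ℝ)) / (k' : ℝ) ^ 2)
      (fun ψ => Q4 G φ (K1 * (D : ℝ) ^ (2 / 3 : ℝ)) ψ) := by
  set t : ℝ := K1 * (D : ℝ) ^ (2 / 3 : ℝ) with ht
  refine family (univ.filter fun s : V × V × V × V => F2I G φ t s)
    (fun s => {s.1, s.2.1, s.2.2.1, s.2.2.2})
    (fun s ω => ω s.1 = ω s.2.2.1 ∧ ω s.2.1 = ω s.2.2.2) 6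
    (4 * ((γ ^ 2 * K1 + ρ) * (D : ℝ) ^ (8 / 3 : ℝ))) (((k' : ℝ) ^ 2)⁻¹) _ _ (by positivity)
    ?_ ?_ ?_ ?_ ?_ ?_ ?_
  · rintro s _ ω η hh
    have h1 := hh s.1 (by simp)
    have h2 := hh s.2.1 (by simp)
    have h3 := hh s.2.2.1 (by simp)
    have h4 := hh s.2.2.2 (by simp)
    simp only [h1, h2, h3, h4]
  · intro s _
    exact ⟨s.1, by simp⟩
  · intro s _
    exact card_le_four.trans (by norm_num)
  · rintro ⟨a, b, c, d⟩ hs
    rw [mem_filter] at hs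
    obtain ⟨-, -, ⟨n1, n2⟩, ⟨a1, a2, a3, a4⟩, -⟩ := hs
    simp only at n1 n2 a1 a2 a3 a4
    have hdis : Disjoint ({a, c} : Finset V) {b, d} := by
      rw [Finset.disjoint_left]
      intro x hx hx'
      simp only [mem_insert, mem_singleton] at hx hx'
      rcases hx with rfl | rfl <;> rcases hx' with rfl | rfl
      · exact G.irrefl a1
      · exact G.irrefl a4
      · exact G.irrefl a2
      · exact G.irrefl a3
    have h1 := P_two_mono (V := V) k' {a, c} {b, d} a b (by simp) (by simp) hdis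
    rw [card_pair n1, card_pair n2] at h1
    have h2 : (unif V (Fin k')).P (fun ω => ω a = ω c ∧ ω b = ω d) =
        (unif V (Fin k')).P (fun ω => (∀ u ∈ ({a, c} : Finset V), ω u = ω a) ∧
          ∀ y ∈ ({b, d} : Finset V), ω y = ω b) := by
      refine Weights.P_congr _ fun ω => ?_
      simp only [mem_insert, mem_singleton, forall_eq_or_imp, forall_eq, true_and]
      constructor
      · rintro ⟨g1, g2⟩
        exact ⟨g1.symm, g2.symm⟩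
      · rintro ⟨g1, g2⟩
        exact ⟨g1.symm, g2.symm⟩
    rw [h2, h1]
    refine le_of_eq ?_
    simp only [Nat.add_one_sub_one, pow_one]
    rw [sq, mul_inv]
  · intro v
    set I : Finset (V × V × V × V) := univ.filter fun s : V × V × V × V => F2I G φ t s with hI
    have hmem : ∀ s, s ∈ I → F2I G φ t s := by
      intro s hs
      rw [hI, mem_filter] at hs
      exact hs.2
    have b1 : ((I.filter fun s => s.1 = v).card : ℝ) ≤ (γ ^ 2 * K1 + ρ) * (D : ℝ) ^ (8 / 3 : ℝ) := by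
      have e1 := f2_count h hγ hρ hK1 v
        ((I.filter fun s => s.1 = v).image fun s => (s.2.1, s.2.2.1, s.2.2.2)) (by
          intro q hq
          rw [mem_image] at hq
          obtain ⟨⟨a, b, c, d⟩, hs, rfl⟩ := hq
          rw [mem_filter] at hs
          obtain ⟨hs, rfl⟩ := hs
          obtain ⟨⟨g1, g2, g3, g4⟩, ⟨n1, n2⟩, ⟨a1, a2, a3, a4⟩, c1, c2⟩ := hmem _ hs
          exact ⟨n1, f2_mem_unc g2 a1 a2.symm, f2_mem_unc g4 a4.symm a3, c1⟩)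
      rw [card_image_of_injOn] at e1
      · exact e1
      · rintro ⟨a, b, c, d⟩ hs ⟨a', b', c', d'⟩ hs' hh
        rw [mem_coe, mem_filter] at hs hs'
        have e2 : a = v := hs.2
        have e3 : a' = v := hs'.2
        simp only [Prod.mk.injEq] at hh ⊢
        exact ⟨e2.trans e3.symm, hh.1, hh.2.1, hh.2.2⟩
    have b2 : ((I.filter fun s => s.2.1 = v).card : ℝ) ≤
        (γ ^ 2 * K1 + ρ) * (D : ℝ) ^ (8 / 3 : ℝ) := by
      have e1 := f2_count h hγ hρ hK1 v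
        ((I.filter fun s => s.2.1 = v).image fun s => (s.1, s.2.2.2, s.2.2.1)) (by
          intro q hq
          rw [mem_image] at hq
          obtain ⟨⟨a, b, c, d⟩, hs, rfl⟩ := hq
          rw [mem_filter] at hs
          obtain ⟨hs, rfl⟩ := hs
          obtain ⟨⟨g1, g2, g3, g4⟩, ⟨n1, n2⟩, ⟨a1, a2, a3, a4⟩, c1, c2⟩ := hmem _ hs
          exact ⟨n2, f2_mem_unc g1 a1.symm a4, f2_mem_unc g3 a2 a3.symm, c2⟩)
      rw [card_image_of_injOn] at e1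
      · exact e1
      · rintro ⟨a, b, c, d⟩ hs ⟨a', b', c', d'⟩ hs' hh
        rw [mem_coe, mem_filter] at hs hs'
        have e2 : b = v := hs.2
        have e3 : b' = v := hs'.2
        simp only [Prod.mk.injEq] at hh ⊢
        exact ⟨hh.1, e2.trans e3.symm, hh.2.2, hh.2.1⟩
    have b3 : ((I.filter fun s => s.2.2.1 = v).card : ℝ) ≤
        (γ ^ 2 * K1 + ρ) * (D : ℝ) ^ (8 / 3 : ℝ) := by
      have e1 := f2_count h hγ hρ hK1 v
        ((I.filter fun s => s.2.2.1 = v).image fun s => (s.2.1, s.1, s.2.2.2)) (by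
          intro q hq
          rw [mem_image] at hq
          obtain ⟨⟨a, b, c, d⟩, hs, rfl⟩ := hq
          rw [mem_filter] at hs
          obtain ⟨hs, rfl⟩ := hs
          obtain ⟨⟨g1, g2, g3, g4⟩, ⟨n1, n2⟩, ⟨a1, a2, a3, a4⟩, c1, c2⟩ := hmem _ hs
          refine ⟨n1.symm, f2_mem_unc g2 a2.symm a1, f2_mem_unc g4 a3 a4.symm, ?_⟩
          rw [codeg_comm]
          exact c1)
      rw [card_image_of_injOn] at e1
      · exact e1
      · rintro ⟨a, b, c, d⟩ hs ⟨a', b', c', d'⟩ hs' hh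
        rw [mem_coe, mem_filter] at hs hs'
        have e2 : c = v := hs.2
        have e3 : c' = v := hs'.2
        simp only [Prod.mk.injEq] at hh ⊢
        exact ⟨hh.2.1, hh.1, e2.trans e3.symm, hh.2.2⟩
    have b4 : ((I.filter fun s => s.2.2.2 = v).card : ℝ) ≤
        (γ ^ 2 * K1 + ρ) * (D : ℝ) ^ (8 / 3 : ℝ) := by
      have e1 := f2_count h hγ hρ hK1 v
        ((I.filter fun s => s.2.2.2 = v).image fun s => (s.1, s.2.1, s.2.2.1)) (by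
          intro q hq
          rw [mem_image] at hq
          obtain ⟨⟨a, b, c, d⟩, hs, rfl⟩ := hq
          rw [mem_filter] at hs
          obtain ⟨hs, rfl⟩ := hs
          obtain ⟨⟨g1, g2, g3, g4⟩, ⟨n1, n2⟩, ⟨a1, a2, a3, a4⟩, c1, c2⟩ := hmem _ hs
          refine ⟨n2.symm, f2_mem_unc g1 a4 a1.symm, f2_mem_unc g3 a3.symm a2, ?_⟩
          rw [codeg_comm]
          exact c2)
      rw [card_image_of_injOn] at e1
      · exact e1
      · rintro ⟨a, b, c, d⟩ hs ⟨a', b', c', d'⟩ hs' hh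
        rw [mem_coe, mem_filter] at hs hs'
        have e2 : d = v := hs.2
        have e3 : d' = v := hs'.2
        simp only [Prod.mk.injEq] at hh ⊢
        exact ⟨hh.1, hh.2.1, hh.2.2, e2.trans e3.symm⟩
    have hsub : (I.filter fun s => v ∈ ({s.1, s.2.1, s.2.2.1, s.2.2.2} : Finset V)) ⊆
        ((I.filter fun s => s.1 = v) ∪ (I.filter fun s => s.2.1 = v)) ∪
        ((I.filter fun s => s.2.2.1 = v) ∪ (I.filter fun s => s.2.2.2 = v)) := by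
      intro s hs
      simp only [mem_filter, mem_insert, mem_singleton, mem_union] at hs ⊢
      obtain ⟨h1, h2 | h2 | h2 | h2⟩ := hs
      · exact Or.inl (Or.inl ⟨h1, h2.symm⟩)
      · exact Or.inl (Or.inr ⟨h1, h2.symm⟩)
      · exact Or.inr (Or.inl ⟨h1, h2.symm⟩)
      · exact Or.inr (Or.inr ⟨h1, h2.symm⟩)
    have h1 := card_le_card hsub
    have h2 := card_union_le ((I.filter fun s => s.1 = v) ∪ (I.filter fun s => s.2.1 = v))
      ((I.filter fun s => s.2.2.1 = v) ∪ (I.filter fun s => s.2.2.2 = v))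
    have h3 := card_union_le (I.filter fun s => s.1 = v) (I.filter fun s => s.2.1 = v)
    have h4 := card_union_le (I.filter fun s => s.2.2.1 = v) (I.filter fun s => s.2.2.2 = v)
    have h5 : ((I.filter fun s => v ∈ ({s.1, s.2.1, s.2.2.1, s.2.2.2} : Finset V)).card : ℝ) ≤
        ((I.filter fun s => s.1 = v).card : ℝ) + ((I.filter fun s => s.2.1 = v).card : ℝ) +
        ((I.filter fun s => s.2.2.1 = v).card : ℝ) + ((I.filter fun s => s.2.2.2 = v).card : ℝ) := by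
      have h6 := h1.trans (h2.trans (Nat.add_le_add h3 h4))
      have h7 : ((I.filter fun s => v ∈ ({s.1, s.2.1, s.2.2.1, s.2.2.2} : Finset V)).card : ℝ) ≤
        (((I.filter fun s => s.1 = v).card + (I.filter fun s => s.2.1 = v).card +
          ((I.filter fun s => s.2.2.1 = v).card + (I.filter fun s => s.2.2.2 = v).card) : ℕ) : ℝ) := by
        exact_mod_cast h6
      push_cast at h7
      linarith
    linarith
  · exact le_of_eq (div_eq_mul_inv _ _).symm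
  · intro ω hω a b c d g1 g2 g3 g4 n1 n2 a1 a2 a3 a4 c1 c2 hh
    refine hω (a, b, c, d) ?_ hh
    rw [mem_filter]
    exact ⟨mem_univ _, ⟨g1, g2, g3, g4⟩, ⟨n1, n2⟩, ⟨a1, a2, a3, a4⟩, c1, c2⟩

end Pool.Agent.Lib.H93C
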