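import Pool.Agent.Lib.H93C.FA
import Pool.Agent.Lib.BipAcyc.StAux

/-!
# H93C, F3: event 5 (paths with six vertices inside the uncoloured part)
-/

set_option autoImplicit false

open Finset
open scoped Classical

namespace Pool.Agent.Lib.H93C

open Pool.Agent.Lib.Prob48 Pool.Agent.Lib.BipAcyc
open Pool.Agent.Lib.H93A (CoreFree codeg)

variable {V : Type} [Fintype V] {G : SimpleGraph V} {k : ℕ}

/-- the neighbours -/
noncomputable def f3N (G : SimpleGraph V) (x : V) : Finset V := univ.filter fun w => G.Adj x w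

theorem f3_memN (x y : V) : y ∈ f3N G x ↔ G.Adj x y := by simp [f3N]

/-- paths with six vertices -/
noncomputable def f3I (G : SimpleGraph V) : Finset (V × V × V × V × V × V) :=
  univ.filter fun t =>
    (G.Adj t.1 t.2.1 ∧ G.Adj t.2.1 t.2.2.1 ∧ G.Adj t.2.2.1 t.2.2.2.1 ∧ G.Adj t.2.2.2.1 t.2.2.2.2.1 ∧
      G.Adj t.2.2.2.2.1 t.2.2.2.2.2) ∧
    (t.1 ≠ t.2.2.1 ∧ t.1 ≠ t.2.2.2.2.1 ∧ t.2.2.1 ≠ t.2.2.2.2.1) ∧
    (t.2.1 ≠ t.2.2.2.1 ∧ t.2.1 ≠ t.2.2.2.2.2 ∧ t.2.2.2.1 ≠ t.2.2.2.2.2) ∧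
    Disjoint ({t.1, t.2.2.1, t.2.2.2.2.1} : Finset V) {t.2.1, t.2.2.2.1, t.2.2.2.2.2}

theorem f3_mem (v1 v2 v3 v4 v5 v6 : V) : (v1, v2, v3, v4, v5, v6) ∈ f3I G ↔
    (G.Adj v1 v2 ∧ G.Adj v2 v3 ∧ G.Adj v3 v4 ∧ G.Adj v4 v5 ∧ G.Adj v5 v6) ∧
    (v1 ≠ v3 ∧ v1 ≠ v5 ∧ v3 ≠ v5) ∧ (v2 ≠ v4 ∧ v2 ≠ v6 ∧ v4 ≠ v6) ∧
    Disjoint ({v1, v3, v5} : Finset V) {v2, v4, v6} := by
  simp only [f3I, mem_filter, mem_univ, true_and]

theorem f3_count1 {D : ℕ} (hD : ∀ x, (f3N G x).card ≤ D) (v : V) :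
    ((f3I G).filter fun t => t.1 = v).card ≤ D ^ 5 := by
  have h1 : ((f3I G).filter fun t => t.1 = v).card ≤
      (dp (f3N G v) fun a2 => dp (f3N G a2) fun a3 => dp (f3N G a3) fun a4 => dp (f3N G a4) fun a5 => f3N G a5).card := by
    refine card_le_card_of_injOn (fun t => (t.2.1, t.2.2.1, t.2.2.2.1, t.2.2.2.2.1, t.2.2.2.2.2)) ?_ ?_
    · rintro ⟨v1, v2, v3, v4, v5, v6⟩ ht
      simp only [coe_filter, Set.mem_ofPred_eq, f3_mem] at ht
      obtain ⟨⟨⟨h12, h23, h34, h45, h56⟩, -⟩, rfl⟩ := ht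
      simp only [mem_coe, mem_dp, f3_memN]
      exact ⟨h12, h23, h34, h45, h56⟩
    · rintro ⟨v1, v2, v3, v4, v5, v6⟩ ht ⟨w1, w2, w3, w4, w5, w6⟩ ht' h
      simp only [coe_filter, Set.mem_ofPred_eq] at ht ht'
      obtain ⟨-, rfl⟩ := ht
      obtain ⟨-, rfl⟩ := ht'
      simp only [Prod.mk.injEq] at h ⊢
      tauto
  refine h1.trans ?_
  refine (card_dp_le _ _ D (D * (D * (D * D))) (hD _) fun _ _ => ?_).trans (by ring_nf; rfl)
  refine card_dp_le _ _ D (D * (D * D)) (hD _) fun _ _ => ?_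
  refine card_dp_le _ _ D (D * D) (hD _) fun _ _ => ?_
  refine card_dp_le _ _ D D (hD _) fun _ _ => hD _

theorem f3_count2 {D : ℕ} (hD : ∀ x, (f3N G x).card ≤ D) (v : V) :
    ((f3I G).filter fun t => t.2.1 = v).card ≤ D ^ 5 := by
  have h1 : ((f3I G).filter fun t => t.2.1 = v).card ≤
      (dp (f3N G v) fun _ => dp (f3N G v) fun a3 => dp (f3N G a3) fun a4 => dp (f3N G a4) fun a5 => f3N G a5).card := by
    refine card_le_card_of_injOn (fun t => (t.1, t.2.2.1, t.2.2.2.1, t.2.2.2.2.1, t.2.2.2.2.2)) ?_ ?_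
    · rintro ⟨v1, v2, v3, v4, v5, v6⟩ ht
      simp only [coe_filter, Set.mem_ofPred_eq, f3_mem] at ht
      obtain ⟨⟨⟨h12, h23, h34, h45, h56⟩, -⟩, rfl⟩ := ht
      simp only [mem_coe, mem_dp, f3_memN]
      exact ⟨h12.symm, h23, h34, h45, h56⟩
    · rintro ⟨v1, v2, v3, v4, v5, v6⟩ ht ⟨w1, w2, w3, w4, w5, w6⟩ ht' h
      simp only [coe_filter, Set.mem_ofPred_eq] at ht ht'
      obtain ⟨-, rfl⟩ := ht
      obtain ⟨-, rfl⟩ := ht'
      simp only [Prod.mk.injEq] at h ⊢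
      tauto
  refine h1.trans ?_
  refine (card_dp_le _ _ D (D * (D * (D * D))) (hD _) fun _ _ => ?_).trans (by ring_nf; rfl)
  refine card_dp_le _ _ D (D * (D * D)) (hD _) fun _ _ => ?_
  refine card_dp_le _ _ D (D * D) (hD _) fun _ _ => ?_
  refine card_dp_le _ _ D D (hD _) fun _ _ => hD _

theorem f3_count3 {D : ℕ} (hD : ∀ x, (f3N G x).card ≤ D) (v : V) :
    ((f3I G).filter fun t => t.2.2.1 = v).card ≤ D ^ 5 := by
  have h1 : ((f3I G).filter fun t => t.2.2.1 = v).card ≤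
      (dp (f3N G v) fun a2 => dp (f3N G a2) fun _ => dp (f3N G v) fun a4 => dp (f3N G a4) fun a5 => f3N G a5).card := by
    refine card_le_card_of_injOn (fun t => (t.2.1, t.1, t.2.2.2.1, t.2.2.2.2.1, t.2.2.2.2.2)) ?_ ?_
    · rintro ⟨v1, v2, v3, v4, v5, v6⟩ ht
      simp only [coe_filter, Set.mem_ofPred_eq, f3_mem] at ht
      obtain ⟨⟨⟨h12, h23, h34, h45, h56⟩, -⟩, rfl⟩ := ht
      simp only [mem_coe, mem_dp, f3_memN]
      exact ⟨h23.symm, h12.symm, h34, h45, h56⟩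
    · rintro ⟨v1, v2, v3, v4, v5, v6⟩ ht ⟨w1, w2, w3, w4, w5, w6⟩ ht' h
      simp only [coe_filter, Set.mem_ofPred_eq] at ht ht'
      obtain ⟨-, rfl⟩ := ht
      obtain ⟨-, rfl⟩ := ht'
      simp only [Prod.mk.injEq] at h ⊢
      tauto
  refine h1.trans ?_
  refine (card_dp_le _ _ D (D * (D * (D * D))) (hD _) fun _ _ => ?_).trans (by ring_nf; rfl)
  refine card_dp_le _ _ D (D * (D * D)) (hD _) fun _ _ => ?_
  refine card_dp_le _ _ D (D * D) (hD _) fun _ _ => ?_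
  refine card_dp_le _ _ D D (hD _) fun _ _ => hD _

theorem f3_count4 {D : ℕ} (hD : ∀ x, (f3N G x).card ≤ D) (v : V) :
    ((f3I G).filter fun t => t.2.2.2.1 = v).card ≤ D ^ 5 := by
  have h1 : ((f3I G).filter fun t => t.2.2.2.1 = v).card ≤
      (dp (f3N G v) fun a3 => dp (f3N G a3) fun a2 => dp (f3N G a2) fun _ => dp (f3N G v) fun a5 => f3N G a5).card := by
    refine card_le_card_of_injOn (fun t => (t.2.2.1, t.2.1, t.1, t.2.2.2.2.1, t.2.2.2.2.2)) ?_ ?_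
    · rintro ⟨v1, v2, v3, v4, v5, v6⟩ ht
      simp only [coe_filter, Set.mem_ofPred_eq, f3_mem] at ht
      obtain ⟨⟨⟨h12, h23, h34, h45, h56⟩, -⟩, rfl⟩ := ht
      simp only [mem_coe, mem_dp, f3_memN]
      exact ⟨h34.symm, h23.symm, h12.symm, h45, h56⟩
    · rintro ⟨v1, v2, v3, v4, v5, v6⟩ ht ⟨w1, w2, w3, w4, w5, w6⟩ ht' h
      simp only [coe_filter, Set.mem_ofPred_eq] at ht ht'
      obtain ⟨-, rfl⟩ := ht
      obtain ⟨-, rfl⟩ := ht'
      simp only [Prod.mk.injEq] at h ⊢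
      tauto
  refine h1.trans ?_
  refine (card_dp_le _ _ D (D * (D * (D * D))) (hD _) fun _ _ => ?_).trans (by ring_nf; rfl)
  refine card_dp_le _ _ D (D * (D * D)) (hD _) fun _ _ => ?_
  refine card_dp_le _ _ D (D * D) (hD _) fun _ _ => ?_
  refine card_dp_le _ _ D D (hD _) fun _ _ => hD _

theorem f3_count5 {D : ℕ} (hD : ∀ x, (f3N G x).card ≤ D) (v : V) :
    ((f3I G).filter fun t => t.2.2.2.2.1 = v).card ≤ D ^ 5 := by
  have h1 : ((f3I G).filter fun t => t.2.2.2.2.1 = v).card ≤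
      (dp (f3N G v) fun a4 => dp (f3N G a4) fun a3 => dp (f3N G a3) fun a2 => dp (f3N G a2) fun _ => f3N G v).card := by
    refine card_le_card_of_injOn (fun t => (t.2.2.2.1, t.2.2.1, t.2.1, t.1, t.2.2.2.2.2)) ?_ ?_
    · rintro ⟨v1, v2, v3, v4, v5, v6⟩ ht
      simp only [coe_filter, Set.mem_ofPred_eq, f3_mem] at ht
      obtain ⟨⟨⟨h12, h23, h34, h45, h56⟩, -⟩, rfl⟩ := ht
      simp only [mem_coe, mem_dp, f3_memN]
      exact ⟨h45.symm, h34.symm, h23.symm, h12.symm, h56⟩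
    · rintro ⟨v1, v2, v3, v4, v5, v6⟩ ht ⟨w1, w2, w3, w4, w5, w6⟩ ht' h
      simp only [coe_filter, Set.mem_ofPred_eq] at ht ht'
      obtain ⟨-, rfl⟩ := ht
      obtain ⟨-, rfl⟩ := ht'
      simp only [Prod.mk.injEq] at h ⊢
      tauto
  refine h1.trans ?_
  refine (card_dp_le _ _ D (D * (D * (D * D))) (hD _) fun _ _ => ?_).trans (by ring_nf; rfl)
  refine card_dp_le _ _ D (D * (D * D)) (hD _) fun _ _ => ?_
  refine card_dp_le _ _ D (D * D) (hD _) fun _ _ => ?_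
  refine card_dp_le _ _ D D (hD _) fun _ _ => hD _

theorem f3_count6 {D : ℕ} (hD : ∀ x, (f3N G x).card ≤ D) (v : V) :
    ((f3I G).filter fun t => t.2.2.2.2.2 = v).card ≤ D ^ 5 := by
  have h1 : ((f3I G).filter fun t => t.2.2.2.2.2 = v).card ≤
      (dp (f3N G v) fun a5 => dp (f3N G a5) fun a4 => dp (f3N G a4) fun a3 => dp (f3N G a3) fun a2 => f3N G a2).card := by
    refine card_le_card_of_injOn (fun t => (t.2.2.2.2.1, t.2.2.2.1, t.2.2.1, t.2.1, t.1)) ?_ ?_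
    · rintro ⟨v1, v2, v3, v4, v5, v6⟩ ht
      simp only [coe_filter, Set.mem_ofPred_eq, f3_mem] at ht
      obtain ⟨⟨⟨h12, h23, h34, h45, h56⟩, -⟩, rfl⟩ := ht
      simp only [mem_coe, mem_dp, f3_memN]
      exact ⟨h56.symm, h45.symm, h34.symm, h23.symm, h12.symm⟩
    · rintro ⟨v1, v2, v3, v4, v5, v6⟩ ht ⟨w1, w2, w3, w4, w5, w6⟩ ht' h
      simp only [coe_filter, Set.mem_ofPred_eq] at ht ht'
      obtain ⟨-, rfl⟩ := ht
      obtain ⟨-, rfl⟩ := ht'
      simp only [Prod.mk.injEq] at h ⊢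
      tauto
  refine h1.trans ?_
  refine (card_dp_le _ _ D (D * (D * (D * D))) (hD _) fun _ _ => ?_).trans (by ring_nf; rfl)
  refine card_dp_le _ _ D (D * (D * D)) (hD _) fun _ _ => ?_
  refine card_dp_le _ _ D (D * D) (hD _) fun _ _ => ?_
  refine card_dp_le _ _ D D (hD _) fun _ _ => hD _

/-- the vertices of a path -/
noncomputable def f3S (t : V × V × V × V × V × V) : Finset V :=
  {t.1, t.2.2.1, t.2.2.2.2.1} ∪ {t.2.1, t.2.2.2.1, t.2.2.2.2.2}

theorem f3_count {D : ℕ} (hD : ∀ x, (f3N G x).card ≤ D) (v : V) :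
    ((f3I G).filter fun t => v ∈ f3S t).card ≤ 6 * D ^ 5 := by
  have hsub : ((f3I G).filter fun t => v ∈ f3S t) ⊆
      ((f3I G).filter fun t => t.1 = v) ∪ (((f3I G).filter fun t => t.2.1 = v) ∪
        (((f3I G).filter fun t => t.2.2.1 = v) ∪ (((f3I G).filter fun t => t.2.2.2.1 = v) ∪
          (((f3I G).filter fun t => t.2.2.2.2.1 = v) ∪ ((f3I G).filter fun t => t.2.2.2.2.2 = v))))) := by
    intro t ht
    simp only [f3S, mem_filter, mem_union, mem_insert, mem_singleton] at ht ⊢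
    obtain ⟨h0, h⟩ := ht
    rcases h with (h | h | h) | (h | h | h)
    · exact Or.inl ⟨h0, h.symm⟩
    · exact Or.inr (Or.inr (Or.inl ⟨h0, h.symm⟩))
    · exact Or.inr (Or.inr (Or.inr (Or.inr (Or.inl ⟨h0, h.symm⟩))))
    · exact Or.inr (Or.inl ⟨h0, h.symm⟩)
    · exact Or.inr (Or.inr (Or.inr (Or.inl ⟨h0, h.symm⟩)))
    · exact Or.inr (Or.inr (Or.inr (Or.inr (Or.inr ⟨h0, h.symm⟩))))
  refine (card_le_card hsub).trans ?_
  have c1 := f3_count1 hD v
  have c2 := f3_count2 hD v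
  have c3 := f3_count3 hD v
  have c4 := f3_count4 hD v
  have c5 := f3_count5 hD v
  have c6 := f3_count6 hD v
  refine (card_union_le _ _).trans ?_
  have d1 := (card_union_le ((f3I G).filter fun t => t.2.1 = v) (((f3I G).filter fun t => t.2.2.1 = v) ∪
    (((f3I G).filter fun t => t.2.2.2.1 = v) ∪
    (((f3I G).filter fun t => t.2.2.2.2.1 = v) ∪ ((f3I G).filter fun t => t.2.2.2.2.2 = v)))))
  have d2 := (card_union_le ((f3I G).filter fun t => t.2.2.1 = v)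
    (((f3I G).filter fun t => t.2.2.2.1 = v) ∪
    (((f3I G).filter fun t => t.2.2.2.2.1 = v) ∪ ((f3I G).filter fun t => t.2.2.2.2.2 = v))))
  have d3 := (card_union_le ((f3I G).filter fun t => t.2.2.2.1 = v)
    (((f3I G).filter fun t => t.2.2.2.2.1 = v) ∪ ((f3I G).filter fun t => t.2.2.2.2.2 = v)))
  have d4 := (card_union_le ((f3I G).filter fun t => t.2.2.2.2.1 = v) ((f3I G).filter fun t => t.2.2.2.2.2 = v))
  omega

/-- event 5: `family` with `I` = the 6-tuples of `Q5` (without the colours), `S` = the six vertices,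
`p = 1/k'^4` (`P_two_mono` with `{v1, v3, v5}`, `{v2, v4, v6}`; these are disjoint or the event is
covered otherwise: if `v_i = v_j` with `i` odd, `j` even, either treat the tuple with `P` of the union,
which is at most `1/k'^4` too, or restrict `I` to disjoint tuples and use `Q1` for the others: a common
value of all six colours contradicts nothing but `Q1` (`G.Adj v1 v2`). Therefore the statement assumes
`Q1`). A vertex is in at most `6 D^5` tuples (it is one of the six, the others are chosen along the path;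
`BipAcyc.card_dp_le`). -/
theorem avoid5 {φ : V → Option (Fin k)} {D : ℕ} {K0 C1 γ ρ δ : ℝ} (h : FHyp G φ D K0 C1 γ ρ δ)
    (k' : ℕ) [NeZero k'] :
    Avoidable (unif V (Fin k')) 6 (6 * (D : ℝ) ^ 5 / (k' : ℝ) ^ 4)
      (fun ψ => Q1 G φ ψ → Q5 G φ ψ) := by
  have hX : (k' : ℝ) ≠ 0 := Nat.cast_ne_zero.2 (NeZero.ne k')
  have hD : ∀ x, (f3N G x).card ≤ D := h.deg
  refine family (f3I G) f3S
    (fun t ω => (∀ u ∈ ({t.1, t.2.2.1, t.2.2.2.2.1} : Finset V), ω u = ω t.1) ∧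
      ∀ y ∈ ({t.2.1, t.2.2.2.1, t.2.2.2.2.2} : Finset V), ω y = ω t.2.1) 6 (6 * (D : ℝ) ^ 5) (((k' : ℝ)⁻¹) ^ 4) _ _
    (by positivity) ?_ ?_ ?_ ?_ ?_ ?_ ?_
  · intro t _
    have h1 := fa_dep (k' := k') ({t.1, t.2.2.1, t.2.2.2.2.1} : Finset V) t.1 (by simp)
    have h2 := fa_dep (k' := k') ({t.2.1, t.2.2.2.1, t.2.2.2.2.2} : Finset V) t.2.1 (by simp)
    intro ω η h
    have e1 := h1 (x := ω) (y := η) fun v hv => h v (by
      simp only [f3S, coe_union, Set.mem_union]; exact Or.inl hv)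
    have e2 := h2 (x := ω) (y := η) fun v hv => h v (by
      simp only [f3S, coe_union, Set.mem_union]; exact Or.inr hv)
    simp only [e1, e2]
  · intro t _
    exact ⟨t.1, by simp [f3S]⟩
  · intro t _
    have h1 : ({t.1, t.2.2.1, t.2.2.2.2.1} : Finset V).card ≤ 3 := card_le_three
    have h2 : ({t.2.1, t.2.2.2.1, t.2.2.2.2.2} : Finset V).card ≤ 3 := card_le_three
    have h3 := card_union_le ({t.1, t.2.2.1, t.2.2.2.2.1} : Finset V) {t.2.1, t.2.2.2.1, t.2.2.2.2.2}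
    unfold f3S
    omega
  · rintro ⟨v1, v2, v3, v4, v5, v6⟩ ht
    rw [f3_mem] at ht
    obtain ⟨-, ⟨h1, h2, h3⟩, ⟨h4, h5, h6⟩, hd⟩ := ht
    have c1 : ({v1, v3, v5} : Finset V).card = 3 := by
      rw [card_eq_three]
      exact ⟨v1, v3, v5, h1, h2, h3, rfl⟩
    have c2 : ({v2, v4, v6} : Finset V).card = 3 := by
      rw [card_eq_three]
      exact ⟨v2, v4, v6, h4, h5, h6, rfl⟩
    have h := P_two_mono k' ({v1, v3, v5} : Finset V) {v2, v4, v6} v1 v2 (by simp) (by simp) hd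
    rw [c1, c2, ← pow_add] at h
    exact h.le
  · intro v
    have h := f3_count hD v
    exact_mod_cast h
  · rw [inv_pow, div_eq_mul_inv]
  · intro ω hω hq v1 v2 v3 v4 v5 v6 u1 u2 u3 u4 u5 u6 n1 n2 n3 n4 n5 n6 a1 a2 a3 a4 a5 hc
    obtain ⟨e3, e5, e4, e6⟩ := hc
    have h12 : ω v1 ≠ ω v2 := hq v1 v2 u1 u2 a1
    have hodd : ∀ x ∈ ({v1, v3, v5} : Finset V), ω x = ω v1 := by
      intro x hx
      simp only [mem_insert, mem_singleton] at hx
      rcases hx with rfl | rfl | rfl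
      · rfl
      · exact e3
      · exact e5
    have heven : ∀ x ∈ ({v2, v4, v6} : Finset V), ω x = ω v2 := by
      intro x hx
      simp only [mem_insert, mem_singleton] at hx
      rcases hx with rfl | rfl | rfl
      · rfl
      · exact e4
      · exact e6
    have hd : Disjoint ({v1, v3, v5} : Finset V) {v2, v4, v6} := by
      rw [Finset.disjoint_left]
      intro x hx hx'
      exact h12 ((hodd x hx).symm.trans (heven x hx'))
    exact hω (v1, v2, v3, v4, v5, v6) ((f3_mem _ _ _ _ _ _).2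
      ⟨⟨a1, a2, a3, a4, a5⟩, ⟨n1, n2, n3⟩, ⟨n4, n5, n6⟩, hd⟩) ⟨hodd, heven⟩

end Pool.Agent.Lib.H93C
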