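import Pool.Agent.Lib.H93C.FA

/-!
# H93C, F4: events 6 and 7
-/

set_option autoImplicit false

open Finset
open scoped Classical

namespace Pool.Agent.Lib.H93C

open Pool.Agent.Lib.Prob48 Pool.Agent.Lib.BipAcyc
open Pool.Agent.Lib.H93A (CoreFree codeg)

variable {V : Type} [Fintype V] {G : SimpleGraph V} {k : ℕ}

/-- event 6: `family` with `I = C6 G φ`, `S = {u₁, u₂, u₃}`, `p = 1/k'^2` -/
theorem avoid6 {φ : V → Option (Fin k)} {D : ℕ} {K0 C1 γ ρ δ : ℝ} (h : FHyp G φ D K0 C1 γ ρ δ)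
    (k' : ℕ) [NeZero k'] :
    Avoidable (unif V (Fin k')) 6 ((D : ℝ) ^ (8 / 3 - δ : ℝ) / (k' : ℝ) ^ 2)
      (fun ψ => Q6 G φ ψ) := by
  have hc3 : ∀ t ∈ C6 G φ, ({t.1, t.2.2.1, t.2.2.2.2.1} : Finset V).card = 3 := by
    intro t ht
    simp only [C6, mem_filter, mem_univ, true_and] at ht
    obtain ⟨-, ⟨h1, h2, h3⟩, -⟩ := ht
    exact card_eq_three.2 ⟨_, _, _, h1, h2, h3, rfl⟩
  refine family (C6 G φ) (fun t => {t.1, t.2.2.1, t.2.2.2.2.1})
    (fun t ψ => ∀ u ∈ ({t.1, t.2.2.1, t.2.2.2.2.1} : Finset V), ψ u = ψ t.1) 6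
    ((D : ℝ) ^ (8 / 3 - δ : ℝ)) (((k' : ℝ)⁻¹) ^ 2) _ _ (by positivity) ?_ ?_ ?_ ?_ ?_ ?_ ?_
  · intro t _
    exact fa_dep _ _ (by simp)
  · intro t _
    exact ⟨t.1, by simp⟩
  · intro t ht
    rw [hc3 t ht]
    norm_num
  · intro t ht
    rw [P_one_mono k' _ t.1 (by simp), hc3 t ht]
  · intro v
    by_cases hv : φ v = none
    · refine le_trans (le_of_eq ?_) (h.f4 v hv)
      congr 2
      unfold C6at
      ext t
      simp only [mem_filter, mem_insert, mem_singleton]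
    · have h0 : ((C6 G φ).filter fun i => v ∈ ({i.1, i.2.2.1, i.2.2.2.2.1} : Finset V)) = ∅ := by
        rw [filter_eq_empty_iff]
        intro t ht hv'
        simp only [C6, mem_filter, mem_univ, true_and] at ht
        obtain ⟨⟨h1, h2, h3⟩, -⟩ := ht
        simp only [mem_insert, mem_singleton] at hv'
        rcases hv' with rfl | rfl | rfl
        · exact hv h1
        · exact hv h2
        · exact hv h3
      rw [h0, card_empty, Nat.cast_zero]
      positivity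
  · exact le_of_eq (by rw [inv_pow, ← div_eq_mul_inv])
  · intro ψ hψ s hs hh
    refine hψ s hs ?_
    intro u hu
    simp only [mem_insert, mem_singleton] at hu
    rcases hu with rfl | rfl | rfl
    · rfl
    · exact hh.1
    · exact hh.2

/-- event 7: `family` with `I = P7 G φ`, `S = {u₁, u₂, u₃, u₄}`, `p = 1/k'^3` -/
theorem avoid7 {φ : V → Option (Fin k)} {D : ℕ} {K0 C1 γ ρ δ : ℝ} (h : FHyp G φ D K0 C1 γ ρ δ)
    (k' : ℕ) [NeZero k'] :
    Avoidable (unif V (Fin k')) 6 ((D : ℝ) ^ (4 - δ : ℝ) / (k' : ℝ) ^ 3)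
      (fun ψ => Q7 G φ ψ) := by
  have hc4 : ∀ t ∈ P7 G φ, ({t.1, t.2.2.1, t.2.2.2.2.1, t.2.2.2.2.2.2} : Finset V).card = 4 := by
    intro t ht
    simp only [P7, mem_filter, mem_univ, true_and] at ht
    obtain ⟨-, ⟨h1, h2, h3, h4, h5, h6⟩, -⟩ := ht
    rw [card_insert_of_notMem, card_eq_three.2 ⟨_, _, _, h4, h5, h6, rfl⟩]
    simp only [mem_insert, mem_singleton, not_or]
    exact ⟨h1, h2, h3⟩
  refine family (P7 G φ) (fun t => {t.1, t.2.2.1, t.2.2.2.2.1, t.2.2.2.2.2.2})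
    (fun t ψ => ∀ u ∈ ({t.1, t.2.2.1, t.2.2.2.2.1, t.2.2.2.2.2.2} : Finset V), ψ u = ψ t.1) 6
    ((D : ℝ) ^ (4 - δ : ℝ)) (((k' : ℝ)⁻¹) ^ 3) _ _ (by positivity) ?_ ?_ ?_ ?_ ?_ ?_ ?_
  · intro t _
    exact fa_dep _ _ (by simp)
  · intro t _
    exact ⟨t.1, by simp⟩
  · intro t ht
    rw [hc4 t ht]
    norm_num
  · intro t ht
    rw [P_one_mono k' _ t.1 (by simp), hc4 t ht]
  · intro v
    by_cases hv : φ v = none
    · refine le_trans (le_of_eq ?_) (h.f5 v hv)
      congr 2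
      unfold P7at
      ext t
      simp only [mem_filter, mem_insert, mem_singleton]
    · have h0 : ((P7 G φ).filter fun i => v ∈ ({i.1, i.2.2.1, i.2.2.2.2.1, i.2.2.2.2.2.2} : Finset V)) = ∅ := by
        rw [filter_eq_empty_iff]
        intro t ht hv'
        simp only [P7, mem_filter, mem_univ, true_and] at ht
        obtain ⟨⟨h1, h2, h3, h4⟩, -⟩ := ht
        simp only [mem_insert, mem_singleton] at hv'
        rcases hv' with rfl | rfl | rfl | rfl
        · exact hv h1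
        · exact hv h2
        · exact hv h3
        · exact hv h4
      rw [h0, card_empty, Nat.cast_zero]
      positivity
  · exact le_of_eq (by rw [inv_pow, ← div_eq_mul_inv])
  · intro ψ hψ s hs hh
    refine hψ s hs ?_
    intro u hu
    simp only [mem_insert, mem_singleton] at hu
    rcases hu with rfl | rfl | rfl | rfl
    · rfl
    · exact hh.1
    · exact hh.2.1
    · exact hh.2.2

end Pool.Agent.Lib.H93C
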