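import Pool.Agent.Lib.H93C.F5

/-!
# H93C, F6: from the seven properties to an acyclic colouring
-/

set_option autoImplicit false

open Finset
open scoped Classical

namespace Pool.Agent.Lib.H93C

open Pool.Agent.Lib.H93A (CoreFree codeg acyclicChromatic)

variable {V : Type} [Fintype V] {G : SimpleGraph V} {k : ℕ}

/-- Colouring with `Fin k ⊕ Fin k'`: `Sum.inl (φ v)` on the coloured vertices, `Sum.inr (ψ v)` on the
others. Compare with the proof of `H93A.acyclicChromatic_le_of_state` (`H93A/C3B.lean`):
`CoreFree.isAcyclic`, cases inl inl (equal colours: independent), inl inr, inr inl, inr inr. -/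
theorem of_Q {φ : V → Option (Fin k)} {D : ℕ} {K0 C1 γ ρ δ t : ℝ} (h : FHyp G φ D K0 C1 γ ρ δ)
    {k' : ℕ} {ψ : V → Fin k'} (h1 : Q1 G φ ψ) (h2 : Q2 G φ t ψ) (h3 : Q3 G φ ψ) (h4 : Q4 G φ t ψ)
    (h5 : Q5 G φ ψ) (h6 : Q6 G φ ψ) (h7 : Q7 G φ ψ) :
    acyclicChromatic G ≤ k + k' := by
  let C : V → Fin k ⊕ Fin k' := fun v => (φ v).elim (Sum.inr (ψ v)) Sum.inl
  have hinl : ∀ v c, C v = Sum.inl c ↔ φ v = some c := by
    intro v c
    dsimp only [C]
    rcases hv : φ v with _ | c0 <;> simp
  have hinr : ∀ v d, C v = Sum.inr d ↔ (φ v = none ∧ ψ v = d) := by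
    intro v d
    dsimp only [C]
    rcases hv : φ v with _ | c0 <;> simp
  have hprop : ∀ u v : V, G.Adj u v → C u ≠ C v := by
    intro u v ha he
    rcases hc : C v with c | d
    · exact h.proper u v c ((hinl u c).1 (he.trans hc)) ((hinl v c).1 hc) ha
    · have e1 := (hinr u d).1 (he.trans hc)
      have e2 := (hinr v d).1 hc
      exact h1 u v e1.1 e2.1 ha (e1.2.trans e2.2.symm)
  have hmix : ∀ (a : Fin k) (b : Fin k'), CoreFree G {v | C v = Sum.inl a ∨ C v = Sum.inr b} := by
    intro a b Z hZn hZ
    refine core_mixed h h1 h3 h6 h7 a b Z hZn fun z hz => ?_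
    rcases hZ z hz with h' | h'
    · exact Or.inl ((hinl z a).1 h')
    · exact Or.inr ((hinr z b).1 h')
  have hcore : ∀ a b, CoreFree G {v | C v = a ∨ C v = b} := by
    intro a b
    rcases a with c | d
    · rcases b with c' | d'
      · by_cases hcc : c = c'
        · intro Z hZn hZ
          obtain ⟨z, hz⟩ := hZn
          refine ⟨z, hz, ?_⟩
          have h1 : (Z.filter fun w => G.Adj z w) = ∅ := by
            rw [filter_eq_empty_iff]
            intro x hx hzx
            have e1 : C z = Sum.inl c := by
              rcases hZ z hz with h | h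
              · exact h
              · rw [hcc]; exact h
            have e2 : C x = Sum.inl c := by
              rcases hZ x hx with h | h
              · exact h
              · rw [hcc]; exact h
            exact hprop z x hzx (e1.trans e2.symm)
          rw [h1]
          simp
        · intro Z hZn hZ
          refine h.forest c c' hcc Z hZn (fun z hz => ?_)
          rcases hZ z hz with h' | h'
          · exact Or.inl ((hinl z c).1 h')
          · exact Or.inr ((hinl z c').1 h')
      · exact hmix c d'
    · rcases b with c' | d'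
      · intro Z hZn hZ
        exact hmix c' d Z hZn fun z hz => (hZ z hz).symm
      · intro Z hZn hZ
        refine core_new h1 h2 h4 h5 d d' Z hZn fun z hz => ?_
        rcases hZ z hz with h' | h'
        · exact ⟨((hinr z d).1 h').1, Or.inl ((hinr z d).1 h').2⟩
        · exact ⟨((hinr z d').1 h').1, Or.inr ((hinr z d').1 h').2⟩
  have hcardT : Fintype.card (Fin k ⊕ Fin k') = k + k' := by
    rw [Fintype.card_sum, Fintype.card_fin, Fintype.card_fin]
  let e := Fintype.equivFinOfCardEq hcardT
  unfold acyclicChromatic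
  refine Nat.sInf_le ⟨fun v => e (C v), fun u v ha h => hprop u v ha (e.injective h), ?_⟩
  intro a b
  have h1 := (hcore (e.symm a) (e.symm b)).isAcyclic
  have h2 : {v : V | e (C v) = a ∨ e (C v) = b} = {v | C v = e.symm a ∨ C v = e.symm b} := by
    ext v
    simp only [Set.mem_ofPred_eq, Equiv.eq_symm_apply]
  rw [h2]
  exact h1

end Pool.Agent.Lib.H93C
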