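import Pool.Agent.Lib.H93C.Defs

/-!
# H93C, F7: the sum of the probabilities
-/

set_option autoImplicit false

open Finset
open scoped Classical

namespace Pool.Agent.Lib.H93C

/-- The inequality in terms of `x = D^(1/3)`, `y = D^(-δ)`, `A`, `B`. -/
theorem f7_num {ε x y A B κ : ℝ} (hε : 0 < ε) (hε1 : ε ≤ 1) (hx : 368640 / ε ^ 4 ≤ x) (hy0 : 0 ≤ y)
    (hy : y ≤ ε ^ 3 / 15360) (hA : A ≤ ε / 800) (hA0 : 0 ≤ A) (hB : B ≤ ε ^ 2 / 12800) (hB0 : 0 ≤ B)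
    (hκ : ε * x ^ 4 / 4 ≤ κ) :
    2 * x ^ 3 / κ + 2 * ((x ^ 3) ^ 2 / (800 / ε * x ^ 2)) / κ + 2 * (A * x ^ 4) / κ + 4 * (B * x ^ 8) / κ ^ 2 +
      6 * (x ^ 3) ^ 5 / κ ^ 4 + x ^ 8 * y / κ ^ 2 + x ^ 12 * y / κ ^ 3 ≤ 1 / 24 := by
  have hx0 : 0 < x := lt_of_lt_of_le (by positivity) hx
  have hK : 0 < ε * x ^ 4 / 4 := by positivity
  have hx4 : 368640 ≤ ε ^ 4 * x := by
    rw [div_le_iff₀ (by positivity)] at hx
    linarith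
  have hε4 : ε ^ 4 ≤ ε := by
    calc ε ^ 4 = ε ^ 3 * ε := by ring
      _ ≤ 1 * ε := mul_le_mul_of_nonneg_right (pow_le_one₀ hε.le hε1) hε.le
      _ = ε := one_mul ε
  have hx1 : 368640 ≤ ε * x := hx4.trans (mul_le_mul_of_nonneg_right hε4 hx0.le)
  have hy2 : y ≤ ε ^ 2 / 3840 := by
    refine hy.trans ?_
    have h1 : ε ^ 3 ≤ ε ^ 2 := pow_le_pow_of_le_one hε.le hε1 (by norm_num)
    have h2 : 0 ≤ ε ^ 2 := by positivity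
    linarith
  have T1 : 2 * x ^ 3 / κ ≤ 1 / 240 := by
    calc 2 * x ^ 3 / κ ≤ 2 * x ^ 3 / (ε * x ^ 4 / 4) := div_le_div_of_nonneg_left (by positivity) hK hκ
      _ = 8 / (ε * x) := by field_simp; ring
      _ ≤ 1 / 240 := by
        rw [div_le_div_iff₀ (by positivity) (by norm_num)]
        linarith
  have T2 : 2 * ((x ^ 3) ^ 2 / (800 / ε * x ^ 2)) / κ ≤ 1 / 100 := by
    calc 2 * ((x ^ 3) ^ 2 / (800 / ε * x ^ 2)) / κ ≤ 2 * ((x ^ 3) ^ 2 / (800 / ε * x ^ 2)) / (ε * x ^ 4 / 4) :=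
          div_le_div_of_nonneg_left (by positivity) hK hκ
      _ = 1 / 100 := by field_simp; norm_num
  have T3 : 2 * (A * x ^ 4) / κ ≤ 1 / 100 := by
    calc 2 * (A * x ^ 4) / κ ≤ 2 * (A * x ^ 4) / (ε * x ^ 4 / 4) := div_le_div_of_nonneg_left (by positivity) hK hκ
      _ = 8 * A / ε := by field_simp; ring
      _ ≤ 1 / 100 := by
        rw [div_le_div_iff₀ hε (by norm_num)]
        linarith
  have T4 : 4 * (B * x ^ 8) / κ ^ 2 ≤ 1 / 200 := by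
    calc 4 * (B * x ^ 8) / κ ^ 2 ≤ 4 * (B * x ^ 8) / (ε * x ^ 4 / 4) ^ 2 :=
          div_le_div_of_nonneg_left (by positivity) (by positivity) (pow_le_pow_left₀ hK.le hκ 2)
      _ = 64 * B / ε ^ 2 := by field_simp; ring
      _ ≤ 1 / 200 := by
        rw [div_le_div_iff₀ (by positivity) (by norm_num)]
        linarith
  have T5 : 6 * (x ^ 3) ^ 5 / κ ^ 4 ≤ 1 / 240 := by
    calc 6 * (x ^ 3) ^ 5 / κ ^ 4 ≤ 6 * (x ^ 3) ^ 5 / (ε * x ^ 4 / 4) ^ 4 :=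
          div_le_div_of_nonneg_left (by positivity) (by positivity) (pow_le_pow_left₀ hK.le hκ 4)
      _ = 1536 / (ε ^ 4 * x) := by field_simp; ring
      _ ≤ 1 / 240 := by
        rw [div_le_div_iff₀ (by positivity) (by norm_num)]
        linarith
  have T6 : x ^ 8 * y / κ ^ 2 ≤ 1 / 240 := by
    calc x ^ 8 * y / κ ^ 2 ≤ x ^ 8 * y / (ε * x ^ 4 / 4) ^ 2 :=
          div_le_div_of_nonneg_left (by positivity) (by positivity) (pow_le_pow_left₀ hK.le hκ 2)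
      _ = 16 * y / ε ^ 2 := by field_simp; ring
      _ ≤ 1 / 240 := by
        rw [div_le_div_iff₀ (by positivity) (by norm_num)]
        linarith
  have T7 : x ^ 12 * y / κ ^ 3 ≤ 1 / 240 := by
    calc x ^ 12 * y / κ ^ 3 ≤ x ^ 12 * y / (ε * x ^ 4 / 4) ^ 3 :=
          div_le_div_of_nonneg_left (by positivity) (by positivity) (pow_le_pow_left₀ hK.le hκ 3)
      _ = 64 * y / ε ^ 3 := by field_simp; ring
      _ ≤ 1 / 240 := by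
        rw [div_le_div_iff₀ (by positivity) (by norm_num)]
        linarith
  linarith

/-- For `D ≥ D0(ε, δ)` and `k' = ⌊ε D^(4/3) / 2⌋` (so `k' ≥ ε D^(4/3)/4`), `K1 = 800/ε`:
the seven terms are at most
`8/(ε D^(1/3))`, `8/(ε K1) = 1/100`, `8 C1 (ρ + γ K0)/ε ≤ 1/100`, `64 (γ² K1 + ρ)/ε² ≤ 1/200`,
`1536/(ε^4 D^(1/3))`, `16 D^(-δ)/ε²`, `64 D^(-δ)/ε³`; the sum is at most `1/24`. -/
theorem sigma_le (ε K0 C1 γ ρ δ : ℝ) (hε : 0 < ε) (hε1 : ε ≤ 1) (hδ : 0 < δ) (hδ1 : δ ≤ 1)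
    (hA : C1 * (ρ + γ * K0) ≤ ε / 800) (hA0 : 0 ≤ C1 * (ρ + γ * K0))
    (hB : γ ^ 2 * (800 / ε) + ρ ≤ ε ^ 2 / 12800) (hB0 : 0 ≤ γ ^ 2 * (800 / ε) + ρ) :
    ∃ D0 : ℕ, 1 ≤ D0 ∧ ∀ D : ℕ, D0 ≤ D → ∀ k' : ℕ, k' = ⌊ε * (D : ℝ) ^ (4 / 3 : ℝ) / 2⌋₊ →
      1 ≤ k' ∧
      2 * (D : ℝ) / k' + 2 * ((D : ℝ) ^ 2 / (800 / ε * (D : ℝ) ^ (2 / 3 : ℝ))) / k' +
        2 * (C1 * (ρ + γ * K0) * (D : ℝ) ^ (4 / 3 : ℝ)) / k' +
        4 * ((γ ^ 2 * (800 / ε) + ρ) * (D : ℝ) ^ (8 / 3 : ℝ)) / (k' : ℝ) ^ 2 +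
        6 * (D : ℝ) ^ 5 / (k' : ℝ) ^ 4 + (D : ℝ) ^ (8 / 3 - δ : ℝ) / (k' : ℝ) ^ 2 +
        (D : ℝ) ^ (4 - δ : ℝ) / (k' : ℝ) ^ 3 ≤ 1 / 24 := by
  have e1 : ∀ᶠ D : ℕ in Filter.atTop, 368640 / ε ^ 4 ≤ (D : ℝ) ^ (1 / 3 : ℝ) :=
    ((tendsto_rpow_atTop (by norm_num : (0 : ℝ) < 1 / 3)).comp tendsto_natCast_atTop_atTop).eventually_ge_atTop _
  have e2 : ∀ᶠ D : ℕ in Filter.atTop, (D : ℝ) ^ (-δ) ≤ ε ^ 3 / 15360 :=
    (((tendsto_rpow_neg_atTop hδ).comp tendsto_natCast_atTop_atTop).eventually_lt_const (by positivity)).mono fun D hD => hD.le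
  obtain ⟨D0, hD0⟩ := Filter.eventually_atTop.1 ((e1.and e2).and (Filter.eventually_ge_atTop 1))
  refine ⟨max D0 1, le_max_right _ _, fun D hD k' hk' => ?_⟩
  obtain ⟨⟨hx, hy⟩, hD1⟩ := hD0 D ((le_max_left _ _).trans hD)
  have hDr : (0 : ℝ) < D := by exact_mod_cast hD1
  set x : ℝ := (D : ℝ) ^ (1 / 3 : ℝ) with hxd
  have hx0 : 0 < x := by positivity
  have p3 : (D : ℝ) = x ^ 3 := by
    rw [hxd, ← Real.rpow_natCast, ← Real.rpow_mul hDr.le]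
    norm_num
  have p2 : (D : ℝ) ^ (2 / 3 : ℝ) = x ^ 2 := by
    rw [hxd, ← Real.rpow_natCast, ← Real.rpow_mul hDr.le]
    norm_num
  have p4 : (D : ℝ) ^ (4 / 3 : ℝ) = x ^ 4 := by
    rw [hxd, ← Real.rpow_natCast, ← Real.rpow_mul hDr.le]
    norm_num
  have p8 : (D : ℝ) ^ (8 / 3 : ℝ) = x ^ 8 := by
    rw [hxd, ← Real.rpow_natCast, ← Real.rpow_mul hDr.le]
    norm_num
  have q8 : (D : ℝ) ^ (8 / 3 - δ : ℝ) = x ^ 8 * (D : ℝ) ^ (-δ) := by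
    rw [← p8, ← Real.rpow_add hDr]
    congr 1
  have q12 : (D : ℝ) ^ (4 - δ : ℝ) = x ^ 12 * (D : ℝ) ^ (-δ) := by
    have h1 : x ^ 12 = (D : ℝ) ^ (4 : ℝ) := by
      rw [hxd, ← Real.rpow_natCast, ← Real.rpow_mul hDr.le]
      norm_num
    rw [h1, ← Real.rpow_add hDr]
    congr 1
  have hε4 : ε ^ 4 ≤ ε := by
    calc ε ^ 4 = ε ^ 3 * ε := by ring
      _ ≤ 1 * ε := mul_le_mul_of_nonneg_right (pow_le_one₀ hε.le hε1) hε.le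
      _ = ε := one_mul ε
  have hx1 : 368640 ≤ ε * x := by
    rw [div_le_iff₀ (by positivity)] at hx
    have h2 := mul_le_mul_of_nonneg_right hε4 hx0.le
    linarith
  have hx1' : 1 ≤ x := by
    have h2 : ε * x ≤ 1 * x := mul_le_mul_of_nonneg_right hε1 hx0.le
    linarith
  have hbig : 2 ≤ ε * x ^ 4 / 2 := by
    have h2 : x ≤ x ^ 4 := le_self_pow₀ hx1' (by norm_num)
    have h3 : ε * x ≤ ε * x ^ 4 := mul_le_mul_of_nonneg_left h2 hε.le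
    linarith
  have hk1 : ε * x ^ 4 / 4 ≤ (k' : ℝ) := by
    have h2 := Nat.lt_floor_add_one (ε * (D : ℝ) ^ (4 / 3 : ℝ) / 2)
    rw [← hk', p4] at h2
    linarith
  refine ⟨?_, ?_⟩
  · have h3 : (0 : ℝ) < k' := lt_of_lt_of_le (by positivity) hk1
    exact_mod_cast h3
  · rw [p2, p4, p8, q8, q12]
    have h5 := f7_num (ε := ε) (x := x) (y := (D : ℝ) ^ (-δ)) (A := C1 * (ρ + γ * K0)) (B := γ ^ 2 * (800 / ε) + ρ)
      (κ := (k' : ℝ)) hε hε1 hx (by positivity) hy hA hA0 hB hB0 hk1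
    rw [← p3] at h5
    exact h5

end Pool.Agent.Lib.H93C
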