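import Pool.Agent.Lib.H93C.F1
import Pool.Agent.Lib.H93C.F2
import Pool.Agent.Lib.H93C.F3
import Pool.Agent.Lib.H93C.F4
import Pool.Agent.Lib.H93C.F6
import Pool.Agent.Lib.H93C.F7

/-!
# H93C, F8: the theorem on fresh colours
-/

set_option autoImplicit false

open Finset
open scoped Classical

namespace Pool.Agent.Lib.H93C

open Pool.Agent.Lib.Prob48 Pool.Agent.Lib.BipAcyc
open Pool.Agent.Lib.H93A (CoreFree codeg acyclicChromatic)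

/-- FRESH COLOURS: `Avoidable.and` of `avoid1` to `avoid7` (`t = 800/ε D^(2/3)`), `sigma_le`,
`Avoidable.exists` (`6 * (1/24) = 1/4`), `of_Q`. -/
theorem fresh (ε K0 C1 γ ρ δ : ℝ) (hε : 0 < ε) (hε1 : ε ≤ 1) (hK0 : 0 ≤ K0) (hC1 : 0 ≤ C1)
    (hγ : 0 ≤ γ) (hρ : 0 ≤ ρ) (hδ : 0 < δ) (hδ1 : δ ≤ 1)
    (hA : C1 * (ρ + γ * K0) ≤ ε / 800) (hB : γ ^ 2 * (800 / ε) + ρ ≤ ε ^ 2 / 12800) :
    ∃ D0 : ℕ, ∀ D : ℕ, D0 ≤ D → ∀ (V : Type) [Fintype V] (G : SimpleGraph V) (k : ℕ)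
      (φ : V → Option (Fin k)), FHyp G φ D K0 C1 γ ρ δ →
      acyclicChromatic G ≤ k + ⌊ε * (D : ℝ) ^ (4 / 3 : ℝ) / 2⌋₊ := by
  have hA0 : 0 ≤ C1 * (ρ + γ * K0) := by positivity
  have hB0 : 0 ≤ γ ^ 2 * (800 / ε) + ρ := by positivity
  obtain ⟨D0, hD1, hD0⟩ := sigma_le ε K0 C1 γ ρ δ hε hε1 hδ hδ1 hA hA0 hB hB0
  refine ⟨D0, fun D hD V _ G k φ h => ?_⟩
  obtain ⟨hk, hs⟩ := hD0 D hD _ rfl
  set k' : ℕ := ⌊ε * (D : ℝ) ^ (4 / 3 : ℝ) / 2⌋₊ with hk'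
  have : NeZero k' := ⟨by omega⟩
  have hDpos : (0 : ℝ) < D := by
    have h1 : 1 ≤ D := hD1.trans hD
    exact_mod_cast h1
  set t : ℝ := 800 / ε * (D : ℝ) ^ (2 / 3 : ℝ) with ht
  have ht0 : 0 < t := by positivity
  have a1 := avoid1 h k'
  have a2 := avoid2 h k' t ht0
  have a3 := avoid3 h hK0 hC1 hγ hρ k'
  have a4 := avoid4 (K1 := 800 / ε) h hγ hρ (by positivity) k'
  have a5 := avoid5 h k'
  have a6 := avoid6 h k'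
  have a7 := avoid7 h k'
  have hall := (((((a1.and a2).and a3).and a4).and a5).and a6).and a7
  obtain ⟨ψ, ⟨⟨⟨⟨⟨⟨q1, q2⟩, q3⟩, q4⟩, q5⟩, q6⟩, q7⟩⟩ := hall.exists (by push_cast; linarith) (by linarith)
  exact of_Q h q1 q2 q3 q4 (q5 q1) q6 q7

end Pool.Agent.Lib.H93C
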