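import Pool.Agent.Lib.H93A.C3B
import Pool.Agent.Lib.BipAcyc.Avoid
import Pool.Agent.Lib.BipAcyc.Prob4

/-!
# H93C: the last step, fresh colours (definitions)

`φ : V → Option (Fin k)` is a partial colouring, the uncoloured vertices (`φ v = none`) get `k'` new
colours by one application of the local lemma. See `README.md`.
-/

set_option autoImplicit false

open Finset
open scoped Classical

namespace Pool.Agent.Lib.H93C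

open Pool.Agent.Lib.H93A (CoreFree codeg)

variable {V : Type} [Fintype V] (G : SimpleGraph V) {k : ℕ}

/-- ordered pairs of distinct neighbours of `v` with the same (old) colour -/
noncomputable def monoPairs (φ : V → Option (Fin k)) (v : V) : Finset (V × V) :=
  univ.filter fun q => q.1 ≠ q.2 ∧ G.Adj v q.1 ∧ G.Adj v q.2 ∧ φ q.1 = φ q.2 ∧ φ q.1 ≠ none

/-- uncoloured common neighbours -/
noncomputable def uncCom (φ : V → Option (Fin k)) (y z : V) : Finset V :=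
  univ.filter fun u => φ u = none ∧ G.Adj y u ∧ G.Adj z u

/-- 6-cycles `(u₁, w₁, u₂, w₂, u₃, w₃)`: the `uᵢ` distinct, uncoloured; the `wᵢ` distinct, of one colour -/
noncomputable def C6 (φ : V → Option (Fin k)) : Finset (V × V × V × V × V × V) :=
  univ.filter fun t =>
    (φ t.1 = none ∧ φ t.2.2.1 = none ∧ φ t.2.2.2.2.1 = none) ∧
    (t.1 ≠ t.2.2.1 ∧ t.1 ≠ t.2.2.2.2.1 ∧ t.2.2.1 ≠ t.2.2.2.2.1) ∧
    (φ t.2.1 ≠ none ∧ φ t.2.2.2.1 = φ t.2.1 ∧ φ t.2.2.2.2.2 = φ t.2.1) ∧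
    (t.2.1 ≠ t.2.2.2.1 ∧ t.2.1 ≠ t.2.2.2.2.2 ∧ t.2.2.2.1 ≠ t.2.2.2.2.2) ∧
    (G.Adj t.1 t.2.1 ∧ G.Adj t.2.1 t.2.2.1 ∧ G.Adj t.2.2.1 t.2.2.2.1 ∧
      G.Adj t.2.2.2.1 t.2.2.2.2.1 ∧ G.Adj t.2.2.2.2.1 t.2.2.2.2.2 ∧ G.Adj t.2.2.2.2.2 t.1)

/-- paths `(u₁, w₁, u₂, w₂, u₃, w₃, u₄)`: the `uᵢ` distinct, uncoloured; the `wᵢ` distinct, of one
colour -/
noncomputable def P7 (φ : V → Option (Fin k)) : Finset (V × V × V × V × V × V × V) :=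
  univ.filter fun t =>
    (φ t.1 = none ∧ φ t.2.2.1 = none ∧ φ t.2.2.2.2.1 = none ∧ φ t.2.2.2.2.2.2 = none) ∧
    (t.1 ≠ t.2.2.1 ∧ t.1 ≠ t.2.2.2.2.1 ∧ t.1 ≠ t.2.2.2.2.2.2 ∧ t.2.2.1 ≠ t.2.2.2.2.1 ∧
      t.2.2.1 ≠ t.2.2.2.2.2.2 ∧ t.2.2.2.2.1 ≠ t.2.2.2.2.2.2) ∧
    (φ t.2.1 ≠ none ∧ φ t.2.2.2.1 = φ t.2.1 ∧ φ t.2.2.2.2.2.1 = φ t.2.1) ∧
    (t.2.1 ≠ t.2.2.2.1 ∧ t.2.1 ≠ t.2.2.2.2.2.1 ∧ t.2.2.2.1 ≠ t.2.2.2.2.2.1) ∧
    (G.Adj t.1 t.2.1 ∧ G.Adj t.2.1 t.2.2.1 ∧ G.Adj t.2.2.1 t.2.2.2.1 ∧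
      G.Adj t.2.2.2.1 t.2.2.2.2.1 ∧ G.Adj t.2.2.2.2.1 t.2.2.2.2.2.1 ∧
      G.Adj t.2.2.2.2.2.1 t.2.2.2.2.2.2)

/-- the `C6` which contain the uncoloured vertex `u` -/
noncomputable def C6at (φ : V → Option (Fin k)) (u : V) : Finset (V × V × V × V × V × V) :=
  (C6 G φ).filter fun t => u = t.1 ∨ u = t.2.2.1 ∨ u = t.2.2.2.2.1

/-- the `P7` which contain the uncoloured vertex `u` -/
noncomputable def P7at (φ : V → Option (Fin k)) (u : V) : Finset (V × V × V × V × V × V × V) :=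
  (P7 G φ).filter fun t => u = t.1 ∨ u = t.2.2.1 ∨ u = t.2.2.2.2.1 ∨ u = t.2.2.2.2.2.2

/-- the hypotheses on the partial colouring -/
structure FHyp (φ : V → Option (Fin k)) (D : ℕ) (K0 C1 γ ρ δ : ℝ) : Prop where
  deg : ∀ v, (univ.filter fun w => G.Adj v w).card ≤ D
  proper : ∀ u v c, φ u = some c → φ v = some c → ¬ G.Adj u v
  forest : ∀ c c', c ≠ c' → CoreFree G {v | φ v = some c ∨ φ v = some c'}
  f1 : ∀ y z, y ≠ z → φ y = φ z → φ y ≠ none →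
    (codeg G y z : ℝ) ≤ K0 * (D : ℝ) ^ (2 / 3 : ℝ)
  f2 : ∀ v, φ v = none → ((monoPairs G φ v).card : ℝ) ≤ C1 * (D : ℝ) ^ (2 / 3 : ℝ)
  f3 : ∀ y z, y ≠ z → ρ * (D : ℝ) ^ (2 / 3 : ℝ) ≤ codeg G y z →
    ((uncCom G φ y z).card : ℝ) ≤ γ * codeg G y z
  f4 : ∀ u, φ u = none → ((C6at G φ u).card : ℝ) ≤ (D : ℝ) ^ (8 / 3 - δ : ℝ)
  f5 : ∀ u, φ u = none → ((P7at G φ u).card : ℝ) ≤ (D : ℝ) ^ (4 - δ : ℝ)

/-! ### the seven properties of the new colours `ψ` -/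

section Q

variable {k' : ℕ} (φ : V → Option (Fin k)) (t : ℝ) (ψ : V → Fin k')

/-- adjacent uncoloured vertices get different colours -/
def Q1 : Prop := ∀ u v, φ u = none → φ v = none → G.Adj u v → ψ u ≠ ψ v

/-- uncoloured vertices of codegree at least `t` get different colours -/
def Q2 : Prop := ∀ u v, φ u = none → φ v = none → u ≠ v → t ≤ codeg G u v → ψ u ≠ ψ v

/-- uncoloured vertices with two common neighbours of one old colour get different colours -/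
def Q3 : Prop := ∀ u u' w w', φ u = none → φ u' = none → u ≠ u' → w ≠ w' → φ w = φ w' → φ w ≠ none →
  G.Adj u w → G.Adj u w' → G.Adj u' w → G.Adj u' w' → ψ u ≠ ψ u'

/-- no two-coloured 4-cycle inside the uncoloured part (pairs of codegree `< t`) -/
def Q4 : Prop := ∀ a b c d, φ a = none → φ b = none → φ c = none → φ d = none → a ≠ c → b ≠ d →
  G.Adj a b → G.Adj b c → G.Adj c d → G.Adj d a → (codeg G a c : ℝ) < t → (codeg G b d : ℝ) < t →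
  ¬ (ψ a = ψ c ∧ ψ b = ψ d)

/-- no two-coloured path with six vertices inside the uncoloured part -/
def Q5 : Prop := ∀ v1 v2 v3 v4 v5 v6, φ v1 = none → φ v2 = none → φ v3 = none → φ v4 = none →
  φ v5 = none → φ v6 = none → v1 ≠ v3 → v1 ≠ v5 → v3 ≠ v5 → v2 ≠ v4 → v2 ≠ v6 → v4 ≠ v6 →
  G.Adj v1 v2 → G.Adj v2 v3 → G.Adj v3 v4 → G.Adj v4 v5 → G.Adj v5 v6 →
  ¬ (ψ v3 = ψ v1 ∧ ψ v5 = ψ v1 ∧ ψ v4 = ψ v2 ∧ ψ v6 = ψ v2)

/-- the `C6` are destroyed -/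
def Q6 : Prop := ∀ s ∈ C6 G φ, ¬ (ψ s.2.2.1 = ψ s.1 ∧ ψ s.2.2.2.2.1 = ψ s.1)

/-- the `P7` are destroyed -/
def Q7 : Prop := ∀ s ∈ P7 G φ,
  ¬ (ψ s.2.2.1 = ψ s.1 ∧ ψ s.2.2.2.2.1 = ψ s.1 ∧ ψ s.2.2.2.2.2.2 = ψ s.1)

end Q

end Pool.Agent.Lib.H93C
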