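import Pool.Agent.Lib.H93C.FA
import Pool.Agent.Lib.H93C.FB

/-!
# H93C, F1: events 1, 2, 3 (pairs of vertices)
-/

set_option autoImplicit false

open Finset
open scoped Classical

namespace Pool.Agent.Lib.H93C

open Pool.Agent.Lib.Prob48 Pool.Agent.Lib.BipAcyc
open Pool.Agent.Lib.H93A (CoreFree codeg)

variable {V : Type} [Fintype V] {G : SimpleGraph V} {k : ℕ}

/-- General form: a symmetric irreflexive relation in which every vertex has at most `c` partners
(`family` with `I` = related pairs (or 2-element sets), `p = 1/k'`, `P_pair_eq`; a pair containing `v`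
is `(v, w)` or `(w, v)`, so use `2 c`). -/
theorem avoid_rel (k' : ℕ) [NeZero k'] (r : V → V → Prop) (hs : ∀ u v, r u v → r v u)
    (hi : ∀ u, ¬ r u u) (c : ℝ) (hc : ∀ u, ((univ.filter fun v => r u v).card : ℝ) ≤ c) :
    Avoidable (unif V (Fin k')) 6 (2 * c / k') (fun ψ => ∀ u v, r u v → ψ u ≠ ψ v) := by
  refine family (univ.filter fun t : V × V => r t.1 t.2) (fun t => {t.1, t.2})
    (fun t ω => ω t.1 = ω t.2) 6 (2 * c) ((k' : ℝ)⁻¹) _ _ (by positivity) ?_ ?_ ?_ ?_ ?_ ?_ ?_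
  · intro t _ ω η h
    have h1 := h t.1 (by simp)
    have h2 := h t.2 (by simp)
    simp only [h1, h2]
  · intro t _
    exact ⟨t.1, by simp⟩
  · intro t _
    exact card_le_two.trans (by norm_num)
  · rintro ⟨u, w⟩ ht
    simp only [mem_filter, mem_univ, true_and] at ht
    have hne : u ≠ w := fun h => hi w (h ▸ ht)
    rw [P_pair_eq _ _ hne, Fintype.card_fin]
  · intro v
    have hsub : ((univ.filter fun t : V × V => r t.1 t.2).filter
        fun t => v ∈ ({t.1, t.2} : Finset V)) ⊆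
        ((univ.filter fun w => r v w).image fun w => (v, w)) ∪
        ((univ.filter fun w => r v w).image fun w => (w, v)) := by
      rintro ⟨u, w⟩ ht
      simp only [mem_filter, mem_univ, true_and, mem_insert, mem_singleton] at ht
      simp only [mem_union, mem_image, mem_filter, mem_univ, true_and, Prod.mk.injEq]
      obtain ⟨h1, rfl | rfl⟩ := ht
      · exact Or.inl ⟨w, h1, rfl, rfl⟩
      · exact Or.inr ⟨u, hs _ _ h1, rfl, rfl⟩
    have h1 := card_le_card hsub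
    have h2 := card_union_le ((univ.filter fun w => r v w).image fun w => (v, w))
        ((univ.filter fun w => r v w).image fun w => (w, v))
    have h3 := card_image_le (s := univ.filter fun w => r v w) (f := fun w => (v, w))
    have h4 := card_image_le (s := univ.filter fun w => r v w) (f := fun w => (w, v))
    have h5 := hc v
    have h6 : ((univ.filter fun t : V × V => r t.1 t.2).filter
        fun t => v ∈ ({t.1, t.2} : Finset V)).card ≤ 2 * (univ.filter fun w => r v w).card := by omega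
    have h7 : ((((univ.filter fun t : V × V => r t.1 t.2).filter
        fun t => v ∈ ({t.1, t.2} : Finset V)).card : ℕ) : ℝ)
        ≤ 2 * ((univ.filter fun w => r v w).card : ℝ) := by exact_mod_cast h6
    linarith
  · rw [div_eq_mul_inv]
  · intro ω hω u w hr h
    exact hω (u, w) (by simp [hr]) h

theorem f1_avoid_rel (k' : ℕ) [NeZero k'] (r : V → V → Prop) (hs : ∀ u v, r u v → r v u)
    (hi : ∀ u, ¬ r u u) (c : ℝ) (hc : ∀ u, ∀ s : Finset V, (∀ v ∈ s, r u v) → (s.card : ℝ) ≤ c) :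
    Avoidable (unif V (Fin k')) 6 (2 * c / k') (fun ψ => ∀ u v, r u v → ψ u ≠ ψ v) :=
  avoid_rel k' r hs hi c fun u => hc u _ fun v hv => (mem_filter.1 hv).2

/-- event 1: `σ = 2 D / k'` -/
theorem avoid1 {φ : V → Option (Fin k)} {D : ℕ} {K0 C1 γ ρ δ : ℝ} (h : FHyp G φ D K0 C1 γ ρ δ)
    (k' : ℕ) [NeZero k'] :
    Avoidable (unif V (Fin k')) 6 (2 * (D : ℝ) / k') (fun ψ => Q1 G φ ψ) := by
  refine (f1_avoid_rel k' (fun u v => φ u = none ∧ φ v = none ∧ G.Adj u v) ?_ ?_ D ?_).imp ?_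
  · rintro u v ⟨h1, h2, h3⟩
    exact ⟨h2, h1, h3.symm⟩
  · rintro u ⟨-, -, h3⟩
    exact G.irrefl h3
  · intro u s hs
    have h1 : s.card ≤ D := by
      refine (card_le_card ?_).trans (h.deg u)
      intro v hv
      rw [mem_filter]
      exact ⟨mem_univ _, (hs v hv).2.2⟩
    exact_mod_cast h1
  · intro ψ hψ u v h1 h2 h3
    exact hψ u v ⟨h1, h2, h3⟩

/-- event 2: at most `D²/t` vertices `v` with `codeg u v ≥ t` (`card_codeg_ge`, `codeg_comm`) -/
theorem avoid2 {φ : V → Option (Fin k)} {D : ℕ} {K0 C1 γ ρ δ : ℝ} (h : FHyp G φ D K0 C1 γ ρ δ)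
    (k' : ℕ) [NeZero k'] (t : ℝ) (ht : 0 < t) :
    Avoidable (unif V (Fin k')) 6 (2 * ((D : ℝ) ^ 2 / t) / k') (fun ψ => Q2 G φ t ψ) := by
  refine (avoid_rel k' (fun u v => φ u = none ∧ φ v = none ∧ u ≠ v ∧ t ≤ codeg G u v) ?_ ?_
    ((D : ℝ) ^ 2 / t) ?_).imp ?_
  · rintro u v ⟨h1, h2, h3, h4⟩
    refine ⟨h2, h1, h3.symm, ?_⟩
    rw [codeg_comm]
    exact h4
  · rintro u ⟨-, -, h3, -⟩
    exact h3 rfl
  · intro u
    refine le_trans ?_ (card_codeg_ge h.deg u t ht)
    have h1 : (univ.filter fun v => φ u = none ∧ φ v = none ∧ u ≠ v ∧ t ≤ codeg G u v).card ≤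
        (univ.filter fun b => t ≤ (codeg G u b : ℝ)).card := by
      refine card_le_card ?_
      intro v hv
      rw [mem_filter] at hv ⊢
      exact ⟨hv.1, hv.2.2.2.2⟩
    exact_mod_cast h1
  · intro ψ hψ u v h1 h2 h3 h4
    exact hψ u v ⟨h1, h2, h3, h4⟩

/-- event 3: for given `u` there are at most `C1 D^(2/3)` pairs `w, w'`, and for each of them at most
`max (ρ D^(2/3)) (γ codeg w w') ≤ (ρ + γ K0) D^(2/3)` uncoloured common neighbours (`f1`, `f2`, `f3`). -/
theorem avoid3 {φ : V → Option (Fin k)} {D : ℕ} {K0 C1 γ ρ δ : ℝ} (h : FHyp G φ D K0 C1 γ ρ δ)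
    (hK0 : 0 ≤ K0) (hC1 : 0 ≤ C1) (hγ : 0 ≤ γ) (hρ : 0 ≤ ρ) (k' : ℕ) [NeZero k'] :
    Avoidable (unif V (Fin k')) 6 (2 * (C1 * (ρ + γ * K0) * (D : ℝ) ^ (4 / 3 : ℝ)) / k')
      (fun ψ => Q3 G φ ψ) := by
  refine (f1_avoid_rel k' (fun u u' => φ u = none ∧ φ u' = none ∧ u ≠ u' ∧ ∃ w w', w ≠ w' ∧
    φ w = φ w' ∧ φ w ≠ none ∧ G.Adj u w ∧ G.Adj u w' ∧ G.Adj u' w ∧ G.Adj u' w') ?_ ?_
    (C1 * (ρ + γ * K0) * (D : ℝ) ^ (4 / 3 : ℝ)) ?_).imp ?_
  · rintro u v ⟨h1, h2, h3, w, w', h4, h5, h6, h7, h8, h9, h10⟩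
    exact ⟨h2, h1, h3.symm, w, w', h4, h5, h6, h9, h10, h7, h8⟩
  · rintro u ⟨-, -, h3, -⟩
    exact h3 rfl
  · intro u s hs
    have hD0 : (0 : ℝ) ≤ (D : ℝ) := Nat.cast_nonneg D
    have hpow : (D : ℝ) ^ (4 / 3 : ℝ) = (D : ℝ) ^ (2 / 3 : ℝ) * (D : ℝ) ^ (2 / 3 : ℝ) := by
      rw [← Real.rpow_add_of_nonneg hD0 (by norm_num) (by norm_num)]
      norm_num
    have hX : 0 ≤ (D : ℝ) ^ (2 / 3 : ℝ) := Real.rpow_nonneg hD0 _
    have hB : 0 ≤ (ρ + γ * K0) * (D : ℝ) ^ (2 / 3 : ℝ) :=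
      mul_nonneg (add_nonneg hρ (mul_nonneg hγ hK0)) hX
    by_cases hu : φ u = none
    · have key : (s.card : ℝ) ≤ ∑ q ∈ monoPairs G φ u, ((uncCom G φ q.1 q.2).card : ℝ) := by
        have hsub : s ⊆ (monoPairs G φ u).biUnion fun q => uncCom G φ q.1 q.2 := by
          intro u' hu'
          obtain ⟨-, h2, h3, w, w', h4, h5, h6, h7, h8, h9, h10⟩ := hs u' hu'
          rw [mem_biUnion]
          refine ⟨(w, w'), ?_, ?_⟩
          · unfold monoPairs
            rw [mem_filter]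
            exact ⟨mem_univ _, h4, h7, h8, h5, h6⟩
          · unfold uncCom
            rw [mem_filter]
            exact ⟨mem_univ _, h2, h9.symm, h10.symm⟩
        have h2 := (card_le_card hsub).trans card_biUnion_le
        exact_mod_cast h2
      refine key.trans ?_
      calc ∑ q ∈ monoPairs G φ u, ((uncCom G φ q.1 q.2).card : ℝ)
          ≤ ∑ _q ∈ monoPairs G φ u, (ρ + γ * K0) * (D : ℝ) ^ (2 / 3 : ℝ) := by
            refine sum_le_sum fun q hq => ?_
            unfold monoPairs at hq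
            rw [mem_filter] at hq
            obtain ⟨-, g1, -, -, g4, g5⟩ := hq
            by_cases hc : ρ * (D : ℝ) ^ (2 / 3 : ℝ) ≤ codeg G q.1 q.2
            · have e1 := h.f3 q.1 q.2 g1 hc
              have e2 := h.f1 q.1 q.2 g1 g4 g5
              have e3 : γ * (codeg G q.1 q.2 : ℝ) ≤ γ * (K0 * (D : ℝ) ^ (2 / 3 : ℝ)) :=
                mul_le_mul_of_nonneg_left e2 hγ
              have e4 : 0 ≤ ρ * (D : ℝ) ^ (2 / 3 : ℝ) := mul_nonneg hρ hX
              linarith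
            · have e1 : (uncCom G φ q.1 q.2).card ≤ codeg G q.1 q.2 := by
                unfold uncCom codeg
                refine card_le_card ?_
                intro y hy
                rw [mem_filter] at hy ⊢
                exact ⟨hy.1, hy.2.2⟩
              have e2 : ((uncCom G φ q.1 q.2).card : ℝ) ≤ codeg G q.1 q.2 := by exact_mod_cast e1
              have e3 : 0 ≤ γ * K0 * (D : ℝ) ^ (2 / 3 : ℝ) := mul_nonneg (mul_nonneg hγ hK0) hX
              have e4 := not_le.1 hc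
              linarith
        _ = ((monoPairs G φ u).card : ℝ) * ((ρ + γ * K0) * (D : ℝ) ^ (2 / 3 : ℝ)) := by
            rw [sum_const, nsmul_eq_mul]
        _ ≤ (C1 * (D : ℝ) ^ (2 / 3 : ℝ)) * ((ρ + γ * K0) * (D : ℝ) ^ (2 / 3 : ℝ)) :=
            mul_le_mul_of_nonneg_right (h.f2 u hu) hB
        _ = C1 * (ρ + γ * K0) * (D : ℝ) ^ (4 / 3 : ℝ) := by
            rw [hpow]
            ring
    · have key : (s.card : ℝ) ≤ 0 := by
        have h0 : s = ∅ := eq_empty_of_forall_notMem fun v hv => hu (hs v hv).1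
        rw [h0, card_empty, Nat.cast_zero]
      refine key.trans ?_
      rw [hpow]
      have := mul_nonneg (mul_nonneg hC1 hX) hB
      nlinarith [this]
  · intro ψ hψ u u' w w' h1 h2 h3 h4 h5 h6 h7 h8 h9 h10
    exact hψ u u' ⟨h1, h2, h3, w, w', h4, h5, h6, h7, h8, h9, h10⟩

end Pool.Agent.Lib.H93C
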