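import Pool.Agent.Lib.H93C.Defs

/-!
# H93C, F5: walks in cores
-/

set_option autoImplicit false

open Finset
open scoped Classical

namespace Pool.Agent.Lib.H93C

open Pool.Agent.Lib.H93A (CoreFree codeg)

variable {V : Type} [Fintype V] {G : SimpleGraph V} {k : ℕ}

/-- a non-backtracking step: in a set `Z` in which everybody has two neighbours -/
theorem step {Z : Finset V} (hZ : ∀ z ∈ Z, 2 ≤ (Z.filter fun w => G.Adj z w).card) (x y : V)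
    (hy : y ∈ Z) : ∃ w ∈ Z, w ≠ x ∧ G.Adj y w := by
  obtain ⟨w, hw, hwx⟩ := Finset.exists_mem_ne (lt_of_lt_of_le one_lt_two (hZ y hy)) x
  rw [mem_filter] at hw
  exact ⟨w, hw.1, hwx, hw.2⟩

theorem f5_alt {α : Type} {a b x y z : α} (hx : x = a ∨ x = b) (hy : y = a ∨ y = b) (hz : z = a ∨ z = b)
    (h1 : x ≠ y) (h2 : y ≠ z) : z = x := by
  rcases hx with rfl | rfl <;> rcases hy with rfl | rfl <;> rcases hz with rfl | rfl <;> tauto

/-- The union of the classes of two new colours has no core. `Z` nonempty, all `z ∈ Z` uncoloured with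
`ψ z = a` or `ψ z = b`, everybody with at least two neighbours in `Z`: if `a = b` contradiction with `Q1`.
Otherwise take a non-backtracking walk `v1 .. v6` in `Z` (`v_(i+2) ≠ v_i`). By `Q1` the colours
alternate. If `v5 = v1`: 4-cycle `v1 v2 v3 v4`, against `Q2` or `Q4`. If `v6 = v2`: 4-cycle
`v2 v3 v4 v5`. Otherwise `Q5`. -/
theorem core_new {φ : V → Option (Fin k)} {k' : ℕ} {t : ℝ} {ψ : V → Fin k'} (h1 : Q1 G φ ψ)
    (h2 : Q2 G φ t ψ) (h4 : Q4 G φ t ψ) (h5 : Q5 G φ ψ) (a b : Fin k') :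
    CoreFree G {v | φ v = none ∧ (ψ v = a ∨ ψ v = b)} := by
  intro Z hZn hZ
  by_contra hcon
  push Not at hcon
  have hZ2 : ∀ z ∈ Z, 2 ≤ (Z.filter fun w => G.Adj z w).card := fun z hz => hcon z hz
  obtain ⟨v1, m1⟩ := hZn
  obtain ⟨v2, m2, -, a12⟩ := step hZ2 v1 v1 m1
  obtain ⟨v3, m3, n31, a23⟩ := step hZ2 v1 v2 m2
  obtain ⟨v4, m4, n42, a34⟩ := step hZ2 v2 v3 m3
  obtain ⟨v5, m5, n53, a45⟩ := step hZ2 v3 v4 m4
  obtain ⟨v6, m6, n64, a56⟩ := step hZ2 v4 v5 m5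
  obtain ⟨u1, c1⟩ := hZ v1 m1
  obtain ⟨u2, c2⟩ := hZ v2 m2
  obtain ⟨u3, c3⟩ := hZ v3 m3
  obtain ⟨u4, c4⟩ := hZ v4 m4
  obtain ⟨u5, c5⟩ := hZ v5 m5
  obtain ⟨u6, c6⟩ := hZ v6 m6
  have d12 := h1 v1 v2 u1 u2 a12
  have d23 := h1 v2 v3 u2 u3 a23
  have d34 := h1 v3 v4 u3 u4 a34
  have d45 := h1 v4 v5 u4 u5 a45
  have d56 := h1 v5 v6 u5 u6 a56
  have e31 : ψ v3 = ψ v1 := f5_alt c1 c2 c3 d12 d23
  have e42 : ψ v4 = ψ v2 := f5_alt c2 c3 c4 d23 d34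
  have e53 : ψ v5 = ψ v3 := f5_alt c3 c4 c5 d34 d45
  have e64 : ψ v6 = ψ v4 := f5_alt c4 c5 c6 d45 d56
  have key : ∀ x y z w, φ x = none → φ y = none → φ z = none → φ w = none → x ≠ z → y ≠ w → G.Adj x y →
      G.Adj y z → G.Adj z w → G.Adj w x → ψ x = ψ z → ψ y = ψ w → False := by
    intro x y z w ux uy uz uw nxz nyw axy ayz azw awx exz eyw
    have q1 : (codeg G x z : ℝ) < t := by
      by_contra hh
      exact h2 x z ux uz nxz (not_lt.1 hh) exz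
    have q2 : (codeg G y w : ℝ) < t := by
      by_contra hh
      exact h2 y w uy uw nyw (not_lt.1 hh) eyw
    exact h4 x y z w ux uy uz uw nxz nyw axy ayz azw awx q1 q2 ⟨exz, eyw⟩
  by_cases h51 : v5 = v1
  · rw [h51] at a45
    exact key v1 v2 v3 v4 u1 u2 u3 u4 n31.symm n42.symm a12 a23 a34 a45 e31.symm e42.symm
  by_cases h62 : v6 = v2
  · rw [h62] at a56
    exact key v2 v3 v4 v5 u2 u3 u4 u5 n42.symm n53.symm a23 a34 a45 a56 e42.symm e53.symm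
  exact h5 v1 v2 v3 v4 v5 v6 u1 u2 u3 u4 u5 u6 n31.symm (Ne.symm h51) n53.symm n42.symm (Ne.symm h62) n64.symm
    a12 a23 a34 a45 a56 ⟨e31, e53.trans e31, e42, e64.trans e42⟩

/-- The union of an old class and a new class has no core. Non-backtracking walk
`u1 w1 u2 w2 u3 w3 u4` with `u1` uncoloured (if `Z` has no uncoloured vertex it is contained in one old
class: contradiction to `proper`; neighbours alternate between the two classes). `u3 = u1` or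
`w3 = w1` or `u4 = u2`: contradiction to `Q3`; `u4 = u1`: `C6`; otherwise `P7`. -/
theorem core_mixed {φ : V → Option (Fin k)} {D : ℕ} {K0 C1 γ ρ δ : ℝ} (h : FHyp G φ D K0 C1 γ ρ δ)
    {k' : ℕ} {ψ : V → Fin k'} (h1 : Q1 G φ ψ) (h3 : Q3 G φ ψ) (h6 : Q6 G φ ψ) (h7 : Q7 G φ ψ)
    (a : Fin k) (b : Fin k') :
    CoreFree G {v | φ v = some a ∨ (φ v = none ∧ ψ v = b)} := by
  intro Z hZn hZ
  by_contra hcon
  push Not at hcon
  have hZ2 : ∀ z ∈ Z, 2 ≤ (Z.filter fun w => G.Adj z w).card := fun z hz => hcon z hz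
  have hZ' : ∀ z ∈ Z, φ z = some a ∨ (φ z = none ∧ ψ z = b) := fun z hz => hZ z hz
  -- the neighbours of a coloured vertex are uncoloured and conversely
  have cu : ∀ x ∈ Z, ∀ y ∈ Z, G.Adj x y → φ x = some a → φ y = none ∧ ψ y = b := by
    intro x hx y hy hxy hxa
    rcases hZ' y hy with h' | h'
    · exact absurd hxy (h.proper x y a hxa h')
    · exact h'
  have uc : ∀ x ∈ Z, ∀ y ∈ Z, G.Adj x y → (φ x = none ∧ ψ x = b) → φ y = some a := by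
    intro x hx y hy hxy hxa
    rcases hZ' y hy with h' | h'
    · exact h'
    · exact absurd (hxa.2.trans h'.2.symm) (h1 x y hxa.1 h'.1 hxy)
  have hstart : ∃ u ∈ Z, φ u = none ∧ ψ u = b := by
    obtain ⟨z, hz⟩ := hZn
    rcases hZ' z hz with h' | h'
    · obtain ⟨y, hy, -, hzy⟩ := step hZ2 z z hz
      exact ⟨y, hy, cu z hz y hy hzy h'⟩
    · exact ⟨z, hz, h'⟩
  obtain ⟨u1, m1, x1⟩ := hstart
  obtain ⟨w1, n1, -, a1⟩ := step hZ2 u1 u1 m1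
  have y1 := uc u1 m1 w1 n1 a1 x1
  obtain ⟨u2, m2, d21, b1⟩ := step hZ2 u1 w1 n1
  have x2 := cu w1 n1 u2 m2 b1 y1
  obtain ⟨w2, n2, f21, a2⟩ := step hZ2 w1 u2 m2
  have y2 := uc u2 m2 w2 n2 a2 x2
  obtain ⟨u3, m3, d32, b2⟩ := step hZ2 u2 w2 n2
  have x3 := cu w2 n2 u3 m3 b2 y2
  obtain ⟨w3, n3, f32, a3⟩ := step hZ2 w2 u3 m3
  have y3 := uc u3 m3 w3 n3 a3 x3
  obtain ⟨u4, m4, d43, b3⟩ := step hZ2 u3 w3 n3
  have x4 := cu w3 n3 u4 m4 b3 y3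
  have key : ∀ u u' w w', (φ u = none ∧ ψ u = b) → (φ u' = none ∧ ψ u' = b) → φ w = some a → φ w' = some a →
      u ≠ u' → w ≠ w' → G.Adj u w → G.Adj u w' → G.Adj u' w → G.Adj u' w' → False := by
    intro u u' w w' hu hu' hw hw' nu nw q1 q2 q3 q4
    exact h3 u u' w w' hu.1 hu'.1 nu nw (hw.trans hw'.symm) (by rw [hw]; simp) q1 q2 q3 q4 (hu.2.trans hu'.2.symm)
  by_cases h31 : u3 = u1
  · rw [h31] at b2
    exact key u1 u2 w1 w2 x1 x2 y1 y2 d21.symm f21.symm a1 b2.symm b1.symm a2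
  by_cases hw31 : w3 = w1
  · rw [hw31] at a3
    exact key u2 u3 w1 w2 x2 x3 y1 y2 d32.symm f21.symm b1.symm a2 a3 b2.symm
  by_cases h42 : u4 = u2
  · rw [h42] at b3
    exact key u2 u3 w2 w3 x2 x3 y2 y3 d32.symm f32.symm a2 b3.symm b2.symm a3
  have nn : φ w1 ≠ none := by rw [y1]; simp
  by_cases h41 : u4 = u1
  · rw [h41] at b3
    refine h6 (u1, w1, u2, w2, u3, w3) ?_ ⟨x2.2.trans x1.2.symm, x3.2.trans x1.2.symm⟩
    simp only [C6, mem_filter, mem_univ, true_and]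
    exact ⟨⟨x1.1, x2.1, x3.1⟩, ⟨d21.symm, Ne.symm h31, d32.symm⟩, ⟨nn, y2.trans y1.symm, y3.trans y1.symm⟩,
      ⟨f21.symm, Ne.symm hw31, f32.symm⟩, a1, b1, a2, b2, a3, b3⟩
  · refine h7 (u1, w1, u2, w2, u3, w3, u4) ?_ ⟨x2.2.trans x1.2.symm, x3.2.trans x1.2.symm, x4.2.trans x1.2.symm⟩
    simp only [P7, mem_filter, mem_univ, true_and]
    exact ⟨⟨x1.1, x2.1, x3.1, x4.1⟩, ⟨d21.symm, Ne.symm h31, Ne.symm h41, d32.symm, Ne.symm h42, d43.symm⟩,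
      ⟨nn, y2.trans y1.symm, y3.trans y1.symm⟩, ⟨f21.symm, Ne.symm hw31, f32.symm⟩, a1, b1, a2, b2, a3, b3⟩

end Pool.Agent.Lib.H93C
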