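import Pool.Agent.Lib.H93C.Defs

/-!
# H93C, FA: counting form of `Avoidable.of_family`, two disjoint monochromatic sets
-/

set_option autoImplicit false

open Finset
open scoped Classical

namespace Pool.Agent.Lib.H93C

open Pool.Agent.Lib.Prob48 Pool.Agent.Lib.BipAcyc

theorem fa_dep {V : Type} [Fintype V] {k' : ℕ} (S : Finset V) (a : V) (ha : a ∈ S) :
    DependsOn (fun ω : V → Fin k' => ∀ u ∈ S, ω u = ω a) (S : Set V) := by
  intro ω η h
  have h1 : ∀ u ∈ S, ω u = η u := fun u hu => h _ (by simpa using hu)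
  simp only [eq_iff_iff]
  constructor
  · intro hh u hu
    rw [← h1 u hu, ← h1 a ha]
    exact hh u hu
  · intro hh u hu
    rw [h1 u hu, h1 a ha]
    exact hh u hu

/-- one monochromatic set -/
theorem P_one_mono {V : Type} [Fintype V] (k' : ℕ) [NeZero k'] (S : Finset V) (a : V) (ha : a ∈ S) :
    (unif V (Fin k')).P (fun ω => ∀ u ∈ S, ω u = ω a) = ((k' : ℝ)⁻¹) ^ (S.card - 1) := by
  have h := P_all_eq (γ := Fin k') S a ha
  rw [Fintype.card_fin] at h
  exact h

/-- the probability that two disjoint sets are monochromatic (`P_all_eq`, `P_and_of_dependsOn`; see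
`BipAcyc.staux_prob` for the same statement on `A ⊕ B`) -/
theorem P_two_mono {V : Type} [Fintype V] (k' : ℕ) [NeZero k'] (S T : Finset V) (a b : V)
    (ha : a ∈ S) (hb : b ∈ T) (hST : Disjoint S T) :
    (unif V (Fin k')).P (fun ω => (∀ u ∈ S, ω u = ω a) ∧ ∀ y ∈ T, ω y = ω b)
      = ((k' : ℝ)⁻¹) ^ (S.card - 1) * ((k' : ℝ)⁻¹) ^ (T.card - 1) := by
  rw [(unif V (Fin k')).P_and_of_dependsOn S (T : Set V) ?_ (fa_dep S a ha) (fa_dep T b hb),
    P_one_mono k' S a ha, P_one_mono k' T b hb]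
  intro v hv hv'
  exact (Finset.disjoint_left.1 hST) hv (by simpa using hv')

/-- Counting form of `Avoidable.of_family`: every event has probability at most `p`, at most `c` of them
involve a given coordinate. (`BipAcyc.staux_family` is the same on `A ⊕ B`.) -/
theorem family {V : Type} [Fintype V] {k' : ℕ} [NeZero k'] {ι : Type} [DecidableEq ι] (I : Finset ι)
    (S : ι → Finset V) (E : ι → (V → Fin k') → Prop) (n : ℕ) (c p σ : ℝ)
    (Q : (V → Fin k') → Prop) (hp : 0 ≤ p)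
    (hdep : ∀ i ∈ I, DependsOn (E i) (S i : Set V)) (hne : ∀ i ∈ I, (S i).Nonempty)
    (hcard : ∀ i ∈ I, (S i).card ≤ n)
    (hP : ∀ i ∈ I, (unif V (Fin k')).P (E i) ≤ p)
    (hc : ∀ v, ((I.filter fun i => v ∈ S i).card : ℝ) ≤ c) (hσ : c * p ≤ σ)
    (hQ : ∀ ω, (∀ i ∈ I, ¬ E i ω) → Q ω) :
    Avoidable (unif V (Fin k')) n σ Q := by
  refine Avoidable.of_family I S E n σ Q hdep hne hcard ?_ hQ
  intro v
  calc ∑ i ∈ I with v ∈ S i, (unif V (Fin k')).P (E i)
      ≤ ∑ _i ∈ I.filter fun i => v ∈ S i, p :=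
        sum_le_sum fun i hi => hP i (mem_filter.1 hi).1
    _ = ((I.filter fun i => v ∈ S i).card : ℝ) * p := by rw [sum_const, nsmul_eq_mul]
    _ ≤ c * p := mul_le_mul_of_nonneg_right (hc v) hp
    _ ≤ σ := hσ

end Pool.Agent.Lib.H93C
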